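import Pool.Agent.Lib.MP_73b196_co.Basic

/-!
# Three facets `V ∖ {x}`, `V ∖ {y}`, `V ∖ B`: moves of degree at most four suffice
-/

set_option autoImplicit false

namespace Pool.Agent.Lib.MP_73b196_co

variable {V : Type} [Fintype V] [DecidableEq V]

/-- Change the coordinate `x`. -/
def flip (x : V) (i : V → Bool) : V → Bool := Function.update i x (!i x)

omit [Fintype V] in
theorem flip_self (x : V) (i : V → Bool) : flip x i x = !i x := by simp [flip]

omit [Fintype V] in
theorem flip_ne {x v : V} (h : v ≠ x) (i : V → Bool) : flip x i v = i v := by simp [flip, h]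

omit [Fintype V] in
theorem flip_flip (x : V) (i : V → Bool) : flip x (flip x i) = i := by
  funext v
  by_cases h : v = x
  · subst h
    simp [flip_self]
  · rw [flip_ne h, flip_ne h]

/-- If everything except `x` is a face, then a table with zero marginals changes sign under
`flip x`. -/
theorem flip_neg {d : (V → Bool) → ℤ} {x : V} (h : ∀ i0, mg (Finset.univ.erase x) d i0 = 0)
    (i : V → Bool) : d (flip x i) = - d i := by
  have h1 := h i
  unfold mg at h1
  have h2 : ∀ j : V → Bool, (∀ v ∈ Finset.univ.erase x, j v = i v) ↔ j = i ∨ j = flip x i := by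
    intro j
    constructor
    · intro hj
      by_cases hx : j x = i x
      · left
        funext v
        by_cases hv : v = x
        · rw [hv, hx]
        · exact hj v (Finset.mem_erase.2 ⟨hv, Finset.mem_univ _⟩)
      · right
        funext v
        by_cases hv : v = x
        · rw [hv, flip_self]
          revert hx
          cases j x <;> cases i x <;> simp
        · rw [flip_ne hv]
          exact hj v (Finset.mem_erase.2 ⟨hv, Finset.mem_univ _⟩)
    · rintro (rfl | rfl) v hv
      · rfl
      · exact flip_ne (Finset.ne_of_mem_erase hv) i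
  have hne : i ≠ flip x i := by
    intro h
    have := congrFun h x
    rw [flip_self] at this
    revert this
    cases i x <;> simp
  simp only [h2] at h1
  rw [← Finset.sum_filter] at h1
  have h3 : (Finset.univ.filter fun j : V → Bool => j = i ∨ j = flip x i) = {i, flip x i} := by
    ext j
    simp
  rw [h3, Finset.sum_pair hne] at h1
  linarith

section

variable (x y : V) (i j : V → Bool)

/-- Give the coordinates `x`, `y` the same values as in `i`. -/
def nrm (k : V → Bool) : V → Bool := Function.update (Function.update k x (i x)) y (i y)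

/-- The sign. -/
def sgn (k : V → Bool) : ℤ := (if k x = i x then 1 else -1) * (if k y = i y then 1 else -1)

/-- The move. -/
def mv (k : V → Bool) : ℤ :=
  sgn x y i k * ((if nrm x y i k = i then 1 else 0) - (if nrm x y i k = j then 1 else 0))

omit [Fintype V] in
theorem nrm_x (k : V → Bool) : nrm x y i k x = i x := by
  unfold nrm
  by_cases h : x = y
  · subst h
    simp
  · simp [h]

omit [Fintype V] in
theorem nrm_y (k : V → Bool) : nrm x y i k y = i y := by simp [nrm]

omit [Fintype V] in
theorem nrm_ne (k : V → Bool) {v : V} (h1 : v ≠ x) (h2 : v ≠ y) : nrm x y i k v = k v := by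
  simp [nrm, h1, h2]

omit [Fintype V] in
theorem nrm_flip_x (k : V → Bool) : nrm x y i (flip x k) = nrm x y i k := by
  funext v
  by_cases h1 : v = x
  · rw [h1, nrm_x, nrm_x]
  · by_cases h2 : v = y
    · rw [h2, nrm_y, nrm_y]
    · rw [nrm_ne x y i _ h1 h2, nrm_ne x y i _ h1 h2, flip_ne h1]

omit [Fintype V] in
theorem nrm_flip_y (k : V → Bool) : nrm x y i (flip y k) = nrm x y i k := by
  funext v
  by_cases h1 : v = x
  · rw [h1, nrm_x, nrm_x]
  · by_cases h2 : v = y
    · rw [h2, nrm_y, nrm_y]
    · rw [nrm_ne x y i _ h1 h2, nrm_ne x y i _ h1 h2, flip_ne h2]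

omit [Fintype V] in
theorem sgn_flip_x (hxy : x ≠ y) (k : V → Bool) : sgn x y i (flip x k) = - sgn x y i k := by
  unfold sgn
  rw [flip_self, flip_ne hxy.symm]
  cases k x <;> cases i x <;> split_ifs <;> simp_all

omit [Fintype V] in
theorem sgn_flip_y (hxy : x ≠ y) (k : V → Bool) : sgn x y i (flip y k) = - sgn x y i k := by
  unfold sgn
  rw [flip_self, flip_ne hxy]
  cases k y <;> cases i y <;> split_ifs <;> simp_all

theorem mv_flip_x (hxy : x ≠ y) (k : V → Bool) : mv x y i j (flip x k) = - mv x y i j k := by
  unfold mv
  rw [sgn_flip_x x y i hxy, nrm_flip_x]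
  ring

theorem mv_flip_y (hxy : x ≠ y) (k : V → Bool) : mv x y i j (flip y k) = - mv x y i j k := by
  unfold mv
  rw [sgn_flip_y x y i hxy, nrm_flip_y]
  ring

/-- `flip x` as an equivalence. -/
def flipEquiv (x : V) : (V → Bool) ≃ (V → Bool) where
  toFun := flip x
  invFun := flip x
  left_inv := flip_flip x
  right_inv := flip_flip x

/-- If `x ∉ F` and the function changes sign under `flip x`, then its `F`-marginals vanish. -/
theorem mg_zero_of_flip {F : Finset V} {x : V} (hx : x ∉ F) (u : (V → Bool) → ℤ)
    (hu : ∀ k, u (flip x k) = - u k) (i0 : V → Bool) : mg F u i0 = 0 := by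
  have h1 : mg F u i0 = - mg F u i0 := by
    conv_lhs => unfold mg
    rw [← Equiv.sum_comp (flipEquiv x)]
    unfold mg
    rw [← Finset.sum_neg_distrib]
    refine Finset.sum_congr rfl (fun k _ => ?_)
    have h2 : (∀ v ∈ F, flip x k v = i0 v) ↔ ∀ v ∈ F, k v = i0 v := by
      refine forall₂_congr (fun v hv => ?_)
      rw [flip_ne (by rintro rfl; exact hx hv)]
    show (if (∀ v ∈ F, flip x k v = i0 v) then u (flip x k) else 0) = _
    simp only [h2, hu]
    split_ifs <;> simp
  linarith

/-- Exchange `i` and `j` (which agree outside `B`). -/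
def xorEquiv (i j : V → Bool) : (V → Bool) ≃ (V → Bool) where
  toFun k := fun v => xor (k v) (xor (i v) (j v))
  invFun k := fun v => xor (k v) (xor (i v) (j v))
  left_inv k := by
    funext v
    show xor (xor (k v) (xor (i v) (j v))) (xor (i v) (j v)) = k v
    cases k v <;> cases i v <;> cases j v <;> rfl
  right_inv k := by
    funext v
    show xor (xor (k v) (xor (i v) (j v))) (xor (i v) (j v)) = k v
    cases k v <;> cases i v <;> cases j v <;> rfl

/-- If `i` and `j` agree on `F` and at `x`, `y`, then the `F`-marginals of the move vanish. -/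
theorem mg_mv_zero {F : Finset V} (hx : i x = j x) (hy : i y = j y) (hF : ∀ v ∈ F, i v = j v)
    (i0 : V → Bool) : mg F (mv x y i j) i0 = 0 := by
  have e : ∀ (l : V → Bool), mg F (mv x y i j) i0 =
      (∑ k, if (∀ v ∈ F, k v = i0 v) then sgn x y i k * (if nrm x y i k = i then 1 else 0) else 0)
      - ∑ k, if (∀ v ∈ F, k v = i0 v) then sgn x y i k * (if nrm x y i k = j then 1 else 0)
        else 0 := by
    intro _
    rw [← Finset.sum_sub_distrib]
    unfold mg mv
    refine Finset.sum_congr rfl (fun k _ => ?_)
    split_ifs <;> ring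
  rw [e i, sub_eq_zero, ← Equiv.sum_comp (xorEquiv i j) (fun k =>
    if (∀ v ∈ F, k v = i0 v) then sgn x y i k * (if nrm x y i k = j then 1 else 0) else 0)]
  refine Finset.sum_congr rfl (fun k _ => ?_)
  have h1 : (∀ v ∈ F, xorEquiv i j k v = i0 v) ↔ ∀ v ∈ F, k v = i0 v := by
    refine forall₂_congr (fun v hv => ?_)
    show xor (k v) (xor (i v) (j v)) = i0 v ↔ _
    rw [hF v hv]
    cases k v <;> cases j v <;> simp
  have h2 : sgn x y i (xorEquiv i j k) = sgn x y i k := by
    unfold sgn
    show (if xor (k x) (xor (i x) (j x)) = i x then (1 : ℤ) else -1) *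
      (if xor (k y) (xor (i y) (j y)) = i y then (1 : ℤ) else -1) = _
    rw [hx, hy]
    cases k x <;> cases j x <;> cases k y <;> cases j y <;> rfl
  have h3 : nrm x y i (xorEquiv i j k) = j ↔ nrm x y i k = i := by
    rw [funext_iff, funext_iff]
    refine forall_congr' (fun v => ?_)
    by_cases hv1 : v = x
    · rw [hv1, nrm_x, nrm_x, hx]
    · by_cases hv2 : v = y
      · rw [hv2, nrm_y, nrm_y, hy]
      · rw [nrm_ne x y i _ hv1 hv2, nrm_ne x y i _ hv1 hv2]
        show xor (k v) (xor (i v) (j v)) = j v ↔ _
        cases k v <;> cases i v <;> cases j v <;> simp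
  simp only [h1, h2, h3]

omit [Fintype V] [DecidableEq V] in
theorem sgn_cases (k : V → Bool) : sgn x y i k = 1 ∨ sgn x y i k = -1 := by
  unfold sgn
  split_ifs <;> simp

omit [Fintype V] in
/-- The value at `k` of a table which changes sign under both flips. -/
theorem val_nrm (hxy : x ≠ y) (d : (V → Bool) → ℤ) (hx : ∀ k, d (flip x k) = - d k)
    (hy : ∀ k, d (flip y k) = - d k) (k : V → Bool) : d k = sgn x y i k * d (nrm x y i k) := by
  have upd : ∀ (v : V) (k : V → Bool) (b : Bool), Function.update k v b =
      if k v = b then k else flip v k := by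
    intro v k b
    split_ifs with h
    · rw [← h, Function.update_eq_self]
    · unfold flip
      congr 1
      revert h
      cases k v <;> cases b <;> simp
  unfold nrm sgn
  rw [upd y, upd x]
  by_cases h1 : k x = i x
  · rw [if_pos h1, if_pos h1]
    by_cases h2 : k y = i y
    · rw [if_pos h2, if_pos h2]
      ring
    · rw [if_neg h2, if_neg h2, hy]
      ring
  · rw [if_neg h1, if_neg h1]
    have h3 : flip x k y = k y := flip_ne hxy.symm k
    rw [h3]
    by_cases h2 : k y = i y
    · rw [if_pos h2, if_pos h2, hx]
      ring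
    · rw [if_neg h2, if_neg h2, hy, hx]
      ring

/-- The number of cells with a given normalisation. -/
theorem card_nrm_le (l : V → Bool) :
    (Finset.univ.filter fun k => nrm x y i k = l).card ≤ 4 := by
  have h1 : (Finset.univ.filter fun k => nrm x y i k = l).card ≤
      (Finset.univ : Finset (Bool × Bool)).card := by
    refine Finset.card_le_card_of_injOn (fun k => (k x, k y)) (fun _ _ => Finset.mem_univ _) ?_
    intro k hk k' hk' h
    simp only [Finset.coe_filter, Finset.mem_univ, true_and, Set.mem_ofPred_eq] at hk hk'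
    simp only [Prod.mk.injEq] at h
    funext v
    by_cases hv1 : v = x
    · rw [hv1, h.1]
    · by_cases hv2 : v = y
      · rw [hv2, h.2]
      · rw [← nrm_ne x y i k hv1 hv2, ← nrm_ne x y i k' hv1 hv2, hk, hk']
  simpa using h1

/-- The absolute values of the move have sum at most eight. -/
theorem sum_abs_mv_le : ∑ k, |mv x y i j k| ≤ 8 := by
  have h1 : ∀ k, |mv x y i j k| ≤
      (if nrm x y i k = i then 1 else 0) + (if nrm x y i k = j then 1 else 0) := by
    intro k
    unfold mv
    rw [abs_mul]
    rcases sgn_cases x y i k with h | h <;> rw [h] <;> split_ifs <;> simp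
  refine (Finset.sum_le_sum (fun k _ => h1 k)).trans ?_
  rw [Finset.sum_add_distrib, Finset.sum_boole, Finset.sum_boole]
  have h2 := card_nrm_le x y i i
  have h3 := card_nrm_le x y i j
  have h2' : ((Finset.univ.filter fun k => nrm x y i k = i).card : ℤ) ≤ 4 := by exact_mod_cast h2
  have h3' : ((Finset.univ.filter fun k => nrm x y i k = j).card : ℤ) ≤ 4 := by exact_mod_cast h3
  linarith

end

/-- A table with zero marginals, a positive entry `i`, a negative entry `j` which agrees with `i`
on every face: the move is conformal. -/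
theorem mv_conformal {x y : V} (hxy : x ≠ y) (i j : V → Bool) (d : (V → Bool) → ℤ)
    (hx : ∀ k, d (flip x k) = - d k) (hy : ∀ k, d (flip y k) = - d k) (hi : 0 < d i)
    (hj : d j < 0) (k : V → Bool) :
    (0 ≤ mv x y i j k ∧ mv x y i j k ≤ d k) ∨ (d k ≤ mv x y i j k ∧ mv x y i j k ≤ 0) := by
  have hij : i ≠ j := by
    rintro rfl
    linarith
  rw [val_nrm x y i hxy d hx hy k]
  unfold mv
  by_cases h1 : nrm x y i k = i
  · rw [h1, if_pos rfl, if_neg hij]
    rcases sgn_cases x y i k with h | h <;> rw [h]
    · left
      constructor <;> linarith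
    · right
      constructor <;> linarith
  · rw [if_neg h1]
    by_cases h2 : nrm x y i k = j
    · rw [h2, if_pos rfl]
      rcases sgn_cases x y i k with h | h <;> rw [h]
      · right
        constructor <;> linarith
      · left
        constructor <;> linarith
    · rw [if_neg h2]
      simp only [sub_self, mul_zero, le_refl, true_and, and_true]
      exact le_total _ _

/-- All moves of degree at most four. -/
def B4 (Δ : Set (Finset V)) : Set ((V → Bool) → ℤ) := {m | IsMove Δ m ∧ degree m ≤ 4}

theorem le_degree (u : (V → Bool) → ℤ) (i : V → Bool) : u i ≤ degree u :=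
  (le_max_left (u i) 0).trans
    (Finset.single_le_sum (f := fun i => max (u i) 0) (fun _ _ => le_max_right _ _)
      (Finset.mem_univ i))

theorem B4_finite {Δ : Set (Finset V)} (h0 : ∅ ∈ Δ) : (B4 Δ).Finite := by
  refine (Set.finite_Icc (fun _ : V → Bool => (-4 : ℤ)) (fun _ => 4)).subset ?_
  rintro m ⟨hm, hd⟩
  refine ⟨fun i => ?_, fun i => (le_degree m i).trans hd⟩
  have := le_degree (-m) i
  rw [degree_neg h0 hm] at this
  simp only [Pi.neg_apply] at this
  show -4 ≤ m i
  linarith

/-- The sufficient condition. -/
theorem suff {Δ : Set (Finset V)} (hΔ : IsComplex Δ) {x y : V} (hxy : x ≠ y)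
    (hpair : ({x, y} : Finset V) ∈ Δ)
    (h2 : ∀ F, F ∉ Δ → x ∈ F ∧ y ∈ F ∧ ∃ b ∈ F, ({x, y, b} : Finset V) ∉ Δ) :
    MarkovDegreeLE Δ 4 := by
  refine ⟨B4 Δ, ⟨B4_finite hΔ.empty, fun m hm => hm.1, ?_⟩, fun m hm => hm.2⟩
  -- the three facets
  have fx : Finset.univ.erase x ∈ Δ := by
    by_contra h
    exact absurd (h2 _ h).1 (by simp)
  have fy : Finset.univ.erase y ∈ Δ := by
    by_contra h
    exact absurd (h2 _ h).2.1 (by simp)
  classical
  set A : Finset V := Finset.univ.filter fun b => ({x, y, b} : Finset V) ∈ Δ with hA
  have fA : A ∈ Δ := by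
    by_contra h
    obtain ⟨-, -, b, hb, hb'⟩ := h2 _ h
    rw [hA, Finset.mem_filter] at hb
    exact hb' hb.2
  have xA : x ∈ A := by
    rw [hA, Finset.mem_filter]
    refine ⟨Finset.mem_univ _, ?_⟩
    rwa [show ({x, y, x} : Finset V) = {x, y} by ext v; simp; tauto]
  have yA : y ∈ A := by
    rw [hA, Finset.mem_filter]
    refine ⟨Finset.mem_univ _, ?_⟩
    rwa [show ({x, y, y} : Finset V) = {x, y} by ext v; simp]
  suffices H : ∀ (N : ℕ) (a b : (V → Bool) → ℕ), SameMarginals Δ a b →
      ∑ k, |toInt b k - toInt a k| ≤ N → Relation.ReflTransGen (Step (B4 Δ)) a b by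
    intro a b hab
    refine H (∑ k, |toInt b k - toInt a k|).toNat a b hab ?_
    rw [Int.toNat_of_nonneg (Finset.sum_nonneg (fun k _ => abs_nonneg _))]
  intro N
  induction N with
  | zero =>
    intro a b _ hN
    have h1 : ∀ k ∈ Finset.univ, |toInt b k - toInt a k| = 0 := by
      rw [← Finset.sum_eq_zero_iff_of_nonneg (fun k _ => abs_nonneg _)]
      exact le_antisymm (by exact_mod_cast hN) (Finset.sum_nonneg (fun k _ => abs_nonneg _))
    have h3 : b = a := by
      apply toInt_injective
      funext k
      have := h1 k (Finset.mem_univ k)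
      rw [abs_eq_zero] at this
      linarith
    rw [h3]
  | succ N ih =>
    intro a b hab hN
    by_cases hne : a = b
    · rw [hne]
    set d : (V → Bool) → ℤ := toInt b - toInt a with hd
    have hmg : ∀ F ∈ Δ, ∀ i0, mg F d i0 = 0 := by
      intro F hF i0
      rw [hd, mg_sub, (same_iff Δ a b).1 hab F hF i0, sub_self]
    have dx := flip_neg (hmg _ fx)
    have dy := flip_neg (hmg _ fy)
    -- a positive entry
    obtain ⟨i, hi⟩ : ∃ i, 0 < d i := by
      by_contra hcon
      push Not at hcon
      have hs : ∑ k, d k = 0 := by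
        have := hmg ∅ hΔ.empty (fun _ => false)
        simpa [mg] using this
      have h1 := (Finset.sum_eq_zero_iff_of_nonpos (fun k _ => hcon k)).1 hs
      apply hne
      apply toInt_injective
      funext k
      have := h1 k (Finset.mem_univ k)
      rw [hd, Pi.sub_apply] at this
      linarith
    -- a negative entry in the same class
    obtain ⟨j, hj, hij⟩ : ∃ j, d j < 0 ∧ ∀ v ∈ A, j v = i v := by
      by_contra hcon
      push Not at hcon
      have h1 := hmg A fA i
      unfold mg at h1
      have h3 : ∀ k ∈ (Finset.univ : Finset (V → Bool)),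
          0 ≤ (if (∀ v ∈ A, k v = i v) then d k else 0) := by
        intro k _
        split_ifs with h
        · by_contra hk
          push Not at hk
          obtain ⟨v, hv, hv'⟩ := hcon k hk
          exact hv' (h v hv)
        · exact le_rfl
      have h4 := (Finset.sum_eq_zero_iff_of_nonneg h3).1 h1 i (Finset.mem_univ i)
      rw [if_pos (fun v _ => rfl)] at h4
      linarith
    have hijne : i ≠ j := by
      rintro rfl
      linarith
    set m : (V → Bool) → ℤ := mv x y i j with hm
    have hconf := mv_conformal hxy i j d dx dy hi hj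
    rw [← hm] at hconf
    have hmi : m i = 1 := by
      have h1 : nrm x y i i = i := by
        funext v
        by_cases hv1 : v = x
        · rw [hv1, nrm_x]
        · by_cases hv2 : v = y
          · rw [hv2, nrm_y]
          · rw [nrm_ne x y i i hv1 hv2]
      rw [hm]
      unfold mv
      rw [h1, if_pos rfl, if_neg hijne]
      simp [sgn]
    have hmove : IsMove Δ m := by
      rw [isMove_iff]
      refine ⟨fun h => ?_, fun F hF i0 => ?_⟩
      · have := congrFun h i
        rw [hmi] at this
        simp at this
      · by_cases hxF : x ∈ F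
        · by_cases hyF : y ∈ F
          · refine mg_mv_zero x y i j (hij x xA).symm (hij y yA).symm (fun v hv => ?_) i0
            refine (hij v ?_).symm
            rw [hA, Finset.mem_filter]
            refine ⟨Finset.mem_univ _, hΔ.down F hF _ ?_⟩
            intro w hw
            simp only [Finset.mem_insert, Finset.mem_singleton] at hw
            rcases hw with rfl | rfl | rfl <;> assumption
          · exact mg_zero_of_flip hyF _ (mv_flip_y x y i j hxy) i0
        · exact mg_zero_of_flip hxF _ (mv_flip_x x y i j hxy) i0
    have hdeg : degree m ≤ 4 := by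
      have h1 : ∑ k, |m k| = 2 * degree m - ∑ k, m k := by
        unfold degree
        rw [Finset.mul_sum, ← Finset.sum_sub_distrib]
        refine Finset.sum_congr rfl (fun k _ => ?_)
        rcases le_total (m k) 0 with h | h
        · rw [max_eq_right h, abs_of_nonpos h]
          ring
        · rw [max_eq_left h, abs_of_nonneg h]
          ring
      have h3 := sum_abs_mv_le x y i j
      rw [← hm, h1, sum_move hΔ.empty hmove] at h3
      linarith
    -- the next table
    have hpos : ∀ k, 0 ≤ toInt a k + m k := by
      intro k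
      have h1 : 0 ≤ toInt a k := Int.natCast_nonneg _
      have h3 : 0 ≤ toInt b k := Int.natCast_nonneg _
      have h4 : d k = toInt b k - toInt a k := rfl
      rcases hconf k with ⟨h5, -⟩ | ⟨h5, -⟩ <;> linarith
    set c : (V → Bool) → ℕ := fun k => (toInt a k + m k).toNat with hc
    have hc' : toInt c = toInt a + m := by
      funext k
      show ((toInt a k + m k).toNat : ℤ) = toInt a k + m k
      exact Int.toNat_of_nonneg (hpos k)
    refine Relation.ReflTransGen.head ⟨m, ⟨hmove, hdeg⟩, Or.inl hc'⟩ (ih c b ?_ ?_)
    · rw [same_iff]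
      intro F hF i0
      rw [hc', mg_add, ((isMove_iff Δ m).1 hmove).2 F hF i0, add_zero]
      exact (same_iff Δ a b).1 hab F hF i0
    · have h1 : ∀ k, |toInt b k - toInt c k| = |toInt b k - toInt a k| - |m k| := by
        intro k
        have h3 : toInt b k - toInt c k = d k - m k := by
          rw [hc', hd]
          simp only [Pi.add_apply, Pi.sub_apply]
          ring
        rw [h3]
        show |d k - m k| = |d k| - |m k|
        rcases hconf k with ⟨h5, h6⟩ | ⟨h5, h6⟩
        · rw [abs_of_nonneg (by linarith), abs_of_nonneg (by linarith), abs_of_nonneg h5]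
        · rw [abs_of_nonpos (by linarith), abs_of_nonpos (by linarith), abs_of_nonpos h6]
          ring
      rw [Finset.sum_congr rfl (fun k _ => h1 k), Finset.sum_sub_distrib]
      have h3 : 1 ≤ ∑ k, |m k| := by
        have := Finset.single_le_sum (f := fun k => |m k|) (fun _ _ => abs_nonneg _)
          (Finset.mem_univ i)
        simp only [hmi, abs_one] at this
        exact this
      push_cast at hN
      linarith

end Pool.Agent.Lib.MP_73b196_co
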