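import Pool.Agent.Lib.MP_73b196_co.Embed
import Pool.Agent.Lib.MP_73b196_co.Suff

/-!
# Boundaries of simplices with at least four vertices
-/

set_option autoImplicit false

namespace Pool.Agent.Lib.MP_73b196_co

variable {V W : Type} [Fintype V] [DecidableEq V] [Fintype W] [DecidableEq W]

/-- The parity character. -/
def sg (j : W → Bool) : ℤ := ∏ w, if j w = true then -1 else 1

theorem sg_flip (w : W) (j : W → Bool) : sg (flip w j) = - sg j := by
  unfold sg
  rw [← Finset.mul_prod_erase Finset.univ _ (Finset.mem_univ w),
    ← Finset.mul_prod_erase Finset.univ (fun w => if j w = true then (-1 : ℤ) else 1)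
      (Finset.mem_univ w)]
  have h1 : ∏ v ∈ Finset.univ.erase w, (if flip w j v = true then (-1 : ℤ) else 1) =
      ∏ v ∈ Finset.univ.erase w, (if j v = true then (-1 : ℤ) else 1) := by
    refine Finset.prod_congr rfl (fun v hv => ?_)
    rw [flip_ne (Finset.ne_of_mem_erase hv)]
  rw [h1, flip_self]
  cases j w <;> simp

omit [DecidableEq W] in
theorem sg_cases (j : W → Bool) : sg j = 1 ∨ sg j = -1 := by
  unfold sg
  induction (Finset.univ : Finset W) using Finset.cons_induction with
  | empty => simp
  | cons a s ha ih =>
    rw [Finset.prod_cons]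
    rcases ih with h | h <;> rw [h] <;> split_ifs <;> simp

/-- The even cells. -/
def evn (j : W → Bool) : ℕ := if sg j = 1 then 1 else 0

/-- The odd cells. -/
def odd' (j : W → Bool) : ℕ := if sg j = 1 then 0 else 1

theorem evn_sub_odd : toInt (evn : (W → Bool) → ℕ) - toInt odd' = sg := by
  funext j
  simp only [Pi.sub_apply, toInt, evn, odd']
  rcases sg_cases j with h | h <;> rw [h] <;> simp

/-- If a table changes its sign under all flips and is not zero, its degree is large. -/
theorem degree_of_flip (hcard : 4 ≤ Fintype.card W) (e : (W → Bool) → ℤ)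
    (he : ∀ w j, e (flip w j) = - e j) (hne : e ≠ 0) : 4 < degree e := by
  obtain ⟨j0, hj0⟩ : ∃ j0, e j0 ≠ 0 := by
    by_contra h
    push Not at h
    exact hne (funext h)
  have habs : ∀ (S : Finset W) (j : W → Bool), |e (fun w => if w ∈ S then !(j w) else j w)| =
      |e j| := by
    intro S
    induction S using Finset.induction_on with
    | empty => intro j; simp
    | insert a S ha ih =>
      intro j
      have h1 : (fun w => if w ∈ insert a S then !(j w) else j w) =
          flip a (fun w => if w ∈ S then !(j w) else j w) := by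
        funext w
        by_cases hw : w = a
        · subst hw
          rw [flip_self]
          simp [ha]
        · rw [flip_ne hw]
          simp [hw]
      rw [h1, he, abs_neg, ih]
  have hall : ∀ j, 1 ≤ |e j| := by
    intro j
    have h1 : j = fun w => if w ∈ Finset.univ.filter (fun w => j w ≠ j0 w) then !(j0 w)
        else j0 w := by
      funext w
      by_cases hw : j w = j0 w
      · simp [hw]
      · have : w ∈ Finset.univ.filter (fun w => j w ≠ j0 w) := by simp [hw]
        rw [if_pos this]
        revert hw
        cases j w <;> cases j0 w <;> simp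
    rw [h1, habs]
    exact Int.one_le_abs hj0
  have hsum : ∑ j, e j = 0 := by
    have hW : Nonempty W := Fintype.card_pos_iff.1 (by omega)
    obtain ⟨w⟩ := hW
    have h1 : ∑ j, e j = ∑ j, e (flip w j) := (Equiv.sum_comp (flipEquiv w) e).symm
    rw [Finset.sum_congr rfl (fun j _ => he w j), Finset.sum_neg_distrib] at h1
    linarith
  have h2 : 2 * degree e = ∑ j, |e j| + ∑ j, e j := by
    unfold degree
    rw [Finset.mul_sum, ← Finset.sum_add_distrib]
    refine Finset.sum_congr rfl (fun k _ => ?_)
    rcases le_total (e k) 0 with h | h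
    · rw [max_eq_right h, abs_of_nonpos h]
      ring
    · rw [max_eq_left h, abs_of_nonneg h]
      ring
  have h3 : (16 : ℤ) ≤ ∑ j : W → Bool, |e j| := by
    have h4 : ∑ _j : W → Bool, (1 : ℤ) ≤ ∑ j, |e j| := Finset.sum_le_sum (fun j _ => hall j)
    rw [Finset.sum_const, Finset.card_univ, Fintype.card_fun, Fintype.card_bool] at h4
    have h5 : 2 ^ 4 ≤ 2 ^ Fintype.card W := Nat.pow_le_pow_right (by norm_num) hcard
    have h6 : (16 : ℤ) ≤ ((2 ^ Fintype.card W : ℕ) : ℤ) := by exact_mod_cast h5
    simp only [nsmul_eq_mul, mul_one] at h4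
    linarith
  rw [hsum] at h2
  linarith

/-- A contraction of an induced subcomplex is the boundary of a simplex with at least four
vertices. -/
theorem bad_boundary {Δ : Set (Finset V)} (hΔ : IsComplex Δ) (c : V → Option W)
    (hs : ∀ w, ∃ v, c v = some w)
    (hsome : ∀ u v w, c u = some w → c v = some w → ({u, v} : Finset V) ∈ Δ)
    (hcard : 4 ≤ Fintype.card W) (hup : ∀ F ∈ Δ, img c F ≠ Finset.univ)
    (hlow : ∀ w, ∃ F ∈ Δ, Finset.univ.erase w ⊆ img c F) : ¬ MarkovDegreeLE Δ 4 := by
  refine bad_of_embed c hΔ hs hsome 4 evn odd' ?_ ?_ ?_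
  · intro h
    have h1 := congrFun h (fun _ => false)
    have h2 : sg (fun _ : W => false) = 1 := by simp [sg]
    rw [evn, odd', h2] at h1
    simp at h1
  · intro F hF j0
    obtain ⟨w, hw⟩ : ∃ w, w ∉ img c F := by
      by_contra h
      push Not at h
      exact hup F hF (Finset.eq_univ_iff_forall.2 h)
    rw [← sub_eq_zero, ← mg_sub, evn_sub_odd]
    exact mg_zero_of_flip hw _ (sg_flip w) j0
  · intro z hz hzx
    refine degree_of_flip hcard _ (fun w j => ?_) ?_
    · refine flip_neg (fun i0 => ?_) j
      rw [mg_sub, hz _ (hlow w) i0, sub_self]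
    · intro h
      apply hzx
      apply toInt_injective
      rwa [sub_eq_zero] at h

end Pool.Agent.Lib.MP_73b196_co
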