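import Pool.Agent.Lib.MP_73b196_co.Search
import Pool.Agent.Lib.MP_73b196_co.Boundary

/-!
# Four obstructions
-/

set_option autoImplicit false

namespace Pool.Agent.Lib.MP_73b196_co

/-- Faces of the complete graph on four vertices with at most one filled triangle. -/
def upK (G : Finset (Fin 4)) : Bool := decide (G.card ≤ 2) || decide (G = {0, 1, 2})

/-- The edges of the complete graph on four vertices. -/
def lowK : List (Finset (Fin 4)) := [{0, 1}, {0, 2}, {0, 3}, {1, 2}, {1, 3}, {2, 3}]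

theorem chkK : chk 4 [2, 0, 0, 0, 0, 0, 0, 1, 0, 1, 1, 0, 1, 0, 0, 0]
    [0, 1, 1, 0, 1, 0, 0, 0, 2, 0, 0, 0, 0, 0, 0, 1] lowK upK = true := by
  decide +kernel

/-- The facets of the first complex on five vertices. -/
def lowT : List (Finset (Fin 5)) := [{0, 1, 2, 3}, {0, 1, 4}, {2, 3, 4}]

/-- Its faces. -/
def upT (G : Finset (Fin 5)) : Bool := lowT.any fun F => decide (G ⊆ F)

theorem chkT : chk 5 [0, 0, 1, 0, 0, 1, 0, 0, 1, 0, 0, 0, 0, 0, 0, 0, 1, 0, 0, 0, 0, 0, 1, 0, 0, 1, 0, 0, 0, 0, 0, 0]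
    [1, 0, 0, 0, 0, 0, 1, 0, 0, 1, 0, 0, 0, 0, 0, 0, 0, 0, 1, 0, 0, 1, 0, 0, 1, 0, 0, 0, 0, 0, 0, 0]
    lowT upT = true := by
  decide +kernel

/-- The facets of the Moebius strip with five vertices. -/
def lowM : List (Finset (Fin 5)) := [{0, 1, 2}, {0, 1, 3}, {0, 2, 4}, {1, 3, 4}, {2, 3, 4}]

/-- Its faces. -/
def upM (G : Finset (Fin 5)) : Bool := lowM.any fun F => decide (G ⊆ F)

theorem chkM : chk 5 [0, 0, 1, 0, 1, 0, 0, 0, 1, 0, 0, 0, 0, 0, 0, 1, 0, 0, 0, 0, 0, 0, 0, 1, 0, 0, 0, 0, 0, 0, 1, 0]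
    [1, 0, 0, 0, 0, 0, 0, 1, 0, 0, 1, 0, 1, 0, 0, 0, 0, 0, 0, 0, 0, 0, 1, 0, 0, 0, 0, 0, 0, 0, 0, 1]
    lowM upM = true := by
  decide +kernel

end Pool.Agent.Lib.MP_73b196_co
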