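import Pool.Agent.Lib.MP_73b196_co.Defs

/-!
# Basic lemmas on marginals, and the criterion for large Markov degree
-/

set_option autoImplicit false

namespace Pool.Agent.Lib.MP_73b196_co

variable {V : Type} [Fintype V] [DecidableEq V]

/-- The marginal of `u` at the restriction of the cell `i₀`. -/
def mg (F : Finset V) (u : (V → Bool) → ℤ) (i0 : V → Bool) : ℤ :=
  ∑ i, if (∀ v ∈ F, i v = i0 v) then u i else 0

theorem marginal_eq_mg (F : Finset V) (u : (V → Bool) → ℤ) (i0 : V → Bool) :
    marginal F u (fun v => i0 v.1) = mg F u i0 := by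
  unfold marginal mg
  rw [Finset.sum_filter]
  refine Finset.sum_congr rfl (fun i _ => ?_)
  by_cases h : ∀ v ∈ F, i v = i0 v
  · rw [if_pos h, if_pos (fun v : {v // v ∈ F} => h v.1 v.2)]
  · rw [if_neg h, if_neg]
    intro h'
    exact h (fun v hv => h' ⟨v, hv⟩)

omit [Fintype V] in
theorem exists_cell (F : Finset V) (j : {v // v ∈ F} → Bool) :
    ∃ i0 : V → Bool, j = fun v => i0 v.1 := by
  refine ⟨fun v => if h : v ∈ F then j ⟨v, h⟩ else false, ?_⟩
  funext v
  simp [v.2]

theorem marginal_iff (F : Finset V) (u w : (V → Bool) → ℤ) :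
    (∀ j, marginal F u j = marginal F w j) ↔ ∀ i0, mg F u i0 = mg F w i0 := by
  constructor
  · intro h i0
    rw [← marginal_eq_mg, ← marginal_eq_mg, h]
  · intro h j
    obtain ⟨i0, rfl⟩ := exists_cell F j
    rw [marginal_eq_mg, marginal_eq_mg, h]

theorem marginal_zero_iff (F : Finset V) (u : (V → Bool) → ℤ) :
    (∀ j, marginal F u j = 0) ↔ ∀ i0, mg F u i0 = 0 := by
  constructor
  · intro h i0
    rw [← marginal_eq_mg, h]
  · intro h j
    obtain ⟨i0, rfl⟩ := exists_cell F j
    rw [marginal_eq_mg, h]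

theorem mg_add (F : Finset V) (u w : (V → Bool) → ℤ) (i0 : V → Bool) :
    mg F (u + w) i0 = mg F u i0 + mg F w i0 := by
  unfold mg
  rw [← Finset.sum_add_distrib]
  refine Finset.sum_congr rfl (fun i _ => ?_)
  split_ifs <;> simp

theorem mg_neg (F : Finset V) (u : (V → Bool) → ℤ) (i0 : V → Bool) :
    mg F (-u) i0 = - mg F u i0 := by
  unfold mg
  rw [← Finset.sum_neg_distrib]
  refine Finset.sum_congr rfl (fun i _ => ?_)
  split_ifs <;> simp

theorem mg_sub (F : Finset V) (u w : (V → Bool) → ℤ) (i0 : V → Bool) :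
    mg F (u - w) i0 = mg F u i0 - mg F w i0 := by
  rw [sub_eq_add_neg, mg_add, mg_neg, sub_eq_add_neg]

theorem same_iff (Δ : Set (Finset V)) (x y : (V → Bool) → ℕ) :
    SameMarginals Δ x y ↔ ∀ F ∈ Δ, ∀ i0, mg F (toInt x) i0 = mg F (toInt y) i0 :=
  forall₂_congr fun F _ => marginal_iff F _ _

theorem isMove_iff (Δ : Set (Finset V)) (u : (V → Bool) → ℤ) :
    IsMove Δ u ↔ u ≠ 0 ∧ ∀ F ∈ Δ, ∀ i0, mg F u i0 = 0 :=
  and_congr_right fun _ => forall₂_congr fun F _ => marginal_zero_iff F _

omit [Fintype V] [DecidableEq V] in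
theorem toInt_injective : Function.Injective (toInt : ((V → Bool) → ℕ) → ((V → Bool) → ℤ)) := by
  intro x y h
  funext i
  have := congrFun h i
  simpa [toInt] using this

/-- The total of a move is zero. -/
theorem sum_move {Δ : Set (Finset V)} (h0 : ∅ ∈ Δ) {u : (V → Bool) → ℤ} (hu : IsMove Δ u) :
    ∑ i, u i = 0 := by
  have := ((isMove_iff Δ u).1 hu).2 ∅ h0 (fun _ => false)
  simpa [mg] using this

/-- The negative of a move has the same degree. -/
theorem degree_neg {Δ : Set (Finset V)} (h0 : ∅ ∈ Δ) {u : (V → Bool) → ℤ} (hu : IsMove Δ u) :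
    degree (-u) = degree u := by
  have h1 : ∑ i, (max (u i) 0 - max (-u i) 0) = ∑ i, u i := by
    refine Finset.sum_congr rfl (fun i _ => ?_)
    rcases le_total (u i) 0 with h | h
    · rw [max_eq_right h, max_eq_left (by omega)]
      ring
    · rw [max_eq_left h, max_eq_right (by omega)]
      ring
  rw [sum_move h0 hu, Finset.sum_sub_distrib] at h1
  unfold degree
  simp only [Pi.neg_apply]
  linarith

/-- If some table `x` has no other table of its fibre at distance at most `d`, but its fibre has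
another element, then the Markov degree is larger than `d`. -/
theorem not_le_of_isolated {Δ : Set (Finset V)} (h0 : ∅ ∈ Δ) (d : ℤ) (x y : (V → Bool) → ℕ)
    (hxy : SameMarginals Δ x y) (hne : x ≠ y)
    (hiso : ∀ z, SameMarginals Δ x z → z ≠ x → d < degree (toInt z - toInt x)) :
    ¬ MarkovDegreeLE Δ d := by
  rintro ⟨B, ⟨-, hB, hconn⟩, hdeg⟩
  have hpath := hconn x y hxy
  rcases Relation.ReflTransGen.cases_head hpath with h | ⟨z, hz, -⟩
  · exact hne h
  · obtain ⟨m, hm, hm'⟩ := hz
    have hmv := hB m hm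
    have key : ∃ m' : (V → Bool) → ℤ, IsMove Δ m' ∧ degree m' ≤ d ∧ toInt z = toInt x + m' := by
      rcases hm' with h | h
      · exact ⟨m, hmv, hdeg m hm, h⟩
      · refine ⟨-m, ?_, ?_, ?_⟩
        · refine (isMove_iff Δ _).2 ⟨neg_ne_zero.2 hmv.1, fun F hF i0 => ?_⟩
          rw [mg_neg, ((isMove_iff Δ m).1 hmv).2 F hF i0, neg_zero]
        · rw [degree_neg h0 hmv]
          exact hdeg m hm
        · rw [h, sub_eq_add_neg]
    obtain ⟨m', h1, h2, h3⟩ := key
    have hzx : z ≠ x := by
      rintro rfl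
      exact h1.1 (by simpa using h3.symm)
    have hs : SameMarginals Δ x z := by
      rw [same_iff]
      intro F hF i0
      rw [h3, mg_add, ((isMove_iff Δ m').1 h1).2 F hF i0, add_zero]
    have h4 := hiso z hs hzx
    rw [h3, add_sub_cancel_left] at h4
    linarith

end Pool.Agent.Lib.MP_73b196_co
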