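import Pool.Agent.Lib.MP_73b196_co.Base

/-!
# The obstructions as statements about faces and nonfaces
-/

set_option autoImplicit false

namespace Pool.Agent.Lib.MP_73b196_co

variable {V : Type} [Fintype V] [DecidableEq V]

/-- Contraction of the vertices `p i` according to the map `q`. -/
noncomputable def cmap {k : ℕ} {W : Type} (p : Fin k → V) (q : Fin k → W) : V → Option W :=
  fun v => (Function.partialInv p v).map q

omit [Fintype V] [DecidableEq V] in
theorem cmap_some {k : ℕ} {W : Type} {p : Fin k → V} (hp : Function.Injective p) (q : Fin k → W)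
    {v : V} {w : W} (h : cmap p q v = some w) : ∃ i, p i = v ∧ q i = w := by
  unfold cmap at h
  rw [Option.map_eq_some_iff] at h
  obtain ⟨i, hi, hi'⟩ := h
  exact ⟨i, (hp.isPartialInv i v).1 hi, hi'⟩

omit [Fintype V] [DecidableEq V] in
theorem cmap_apply {k : ℕ} {W : Type} {p : Fin k → V} (hp : Function.Injective p) (q : Fin k → W)
    (i : Fin k) : cmap p q (p i) = some (q i) := by
  unfold cmap
  rw [(hp.isPartialInv i (p i)).2 rfl]
  rfl

omit [Fintype V] in
/-- The image of a face. -/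
theorem img_cmap {k : ℕ} {W : Type} [Fintype W] [DecidableEq W] {p : Fin k → V}
    (hp : Function.Injective p) (q : Fin k → W) (F : Finset V) :
    img (cmap p q) F = (Finset.univ.filter fun i => p i ∈ F).image q := by
  ext w
  rw [mem_img, Finset.mem_image]
  constructor
  · rintro ⟨v, hv, hvw⟩
    obtain ⟨i, hi, hi'⟩ := cmap_some hp q hvw
    exact ⟨i, by rw [Finset.mem_filter]; exact ⟨Finset.mem_univ _, by rw [hi]; exact hv⟩, hi'⟩
  · rintro ⟨i, hi, hi'⟩
    rw [Finset.mem_filter] at hi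
    exact ⟨p i, hi.2, by rw [cmap_apply hp, hi']⟩

omit [Fintype V] in
theorem image_filter_mem {k : ℕ} {Δ : Set (Finset V)} (hdown : ∀ F ∈ Δ, ∀ G, G ⊆ F → G ∈ Δ)
    (p : Fin k → V) {F : Finset V} (hF : F ∈ Δ) :
    (Finset.univ.filter fun i => p i ∈ F).image p ∈ Δ := by
  refine hdown F hF _ ?_
  intro v hv
  rw [Finset.mem_image] at hv
  obtain ⟨i, hi, rfl⟩ := hv
  exact (Finset.mem_filter.1 hi).2

/-- Induced subcomplexes. -/
theorem bad_del {m : ℕ} (hm : codeOk m) {Δ : Set (Finset V)} (hΔ : IsComplex Δ) (p : Fin m → V)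
    (hp : Function.Injective p) (X Y : List ℕ) (low : List (Finset (Fin m)))
    (up : Finset (Fin m) → Bool) (h : chk m X Y low up = true)
    (hup : ∀ G : Finset (Fin m), up G = false → G.image p ∉ Δ)
    (hlow : ∀ G ∈ low, G.image p ∈ Δ) : ¬ MarkovDegreeLE Δ 4 := by
  refine bad_of_chk hm hΔ (cmap p id) (fun w => ⟨p w, cmap_apply hp id w⟩) ?_ X Y low up ?_ ?_ h
  · intro u v w hu hv
    obtain ⟨i, hi, hi'⟩ := cmap_some hp id hu
    obtain ⟨j, hj, hj'⟩ := cmap_some hp id hv
    have : u = v := by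
      rw [← hi, ← hj]
      congr 1
      exact hi'.trans hj'.symm
    rw [this, Finset.pair_eq_singleton]
    exact hΔ.vertex v
  · intro F hF
    rw [img_cmap hp, Finset.image_id]
    by_contra h1
    rw [Bool.not_eq_true] at h1
    exact hup _ h1 (image_filter_mem hΔ.down p hF)
  · intro G hG
    refine ⟨_, hlow G hG, ?_⟩
    rw [img_cmap hp, Finset.image_id]
    intro i hi
    rw [Finset.mem_filter]
    exact ⟨Finset.mem_univ _, Finset.mem_image_of_mem p hi⟩

/-- Contractions to the boundary of a simplex. -/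
theorem bad_con {k l : ℕ} (hl : 4 ≤ l) {Δ : Set (Finset V)} (hΔ : IsComplex Δ) (p : Fin k → V)
    (hp : Function.Injective p) (q : Fin k → Fin l) (hq : Function.Surjective q)
    (hpq : ∀ i j, q i = q j → ({p i, p j} : Finset V) ∈ Δ)
    (hup : ∀ G : Finset (Fin k), G.image q = Finset.univ → G.image p ∉ Δ)
    (hlow : ∀ w, ∃ G : Finset (Fin k), G.image p ∈ Δ ∧ Finset.univ.erase w ⊆ G.image q) :
    ¬ MarkovDegreeLE Δ 4 := by
  refine bad_boundary hΔ (cmap p q) ?_ ?_ (by simpa using hl) ?_ ?_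
  · intro w
    obtain ⟨i, rfl⟩ := hq w
    exact ⟨p i, cmap_apply hp q i⟩
  · intro u v w hu hv
    obtain ⟨i, rfl, hi'⟩ := cmap_some hp q hu
    obtain ⟨j, rfl, hj'⟩ := cmap_some hp q hv
    exact hpq i j (hi'.trans hj'.symm)
  · intro F hF h1
    rw [img_cmap hp] at h1
    exact hup _ h1 (image_filter_mem hΔ.down p hF)
  · intro w
    obtain ⟨G, hG, hG'⟩ := hlow w
    refine ⟨_, hG, hG'.trans ?_⟩
    rw [img_cmap hp]
    refine Finset.image_subset_image ?_
    intro i hi
    rw [Finset.mem_filter]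
    exact ⟨Finset.mem_univ _, Finset.mem_image_of_mem p hi⟩

/-- A minimal nonface with at least four elements. -/
theorem bad_min {Δ : Set (Finset V)} (hΔ : IsComplex Δ) (N : Finset V) (hN : N ∉ Δ)
    (hmin : ∀ v ∈ N, N.erase v ∈ Δ) (hcard : 4 ≤ N.card) : ¬ MarkovDegreeLE Δ 4 := by
  classical
  have hc : ∀ {v : V} {w : {v // v ∈ N}},
      (if h : v ∈ N then some (⟨v, h⟩ : {v // v ∈ N}) else none) = some w → v = w.1 := by
    intro v w h
    split_ifs at h with h1
    exact congrArg Subtype.val (Option.some.inj h)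
  refine bad_boundary (W := {v // v ∈ N}) hΔ (fun v => if h : v ∈ N then some ⟨v, h⟩ else none)
    (fun w => ⟨w.1, by simp [w.2]⟩) ?_ (by simpa using hcard) ?_ ?_
  · intro u v w hu hv
    rw [hc hu, hc hv, Finset.pair_eq_singleton]
    exact hΔ.vertex _
  · intro F hF h1
    apply hN
    refine hΔ.down F hF N ?_
    intro v hv
    have h2 := Finset.mem_univ (⟨v, hv⟩ : {v // v ∈ N})
    rw [← h1, mem_img] at h2
    obtain ⟨u, hu, hu'⟩ := h2
    have h3 : u = v := hc hu'
    rwa [h3] at hu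
  · intro w
    refine ⟨_, hmin w.1 w.2, ?_⟩
    intro v hv
    rw [mem_img]
    refine ⟨v.1, ?_, by simp [v.2]⟩
    rw [Finset.mem_erase]
    exact ⟨fun h => Finset.ne_of_mem_erase hv (Subtype.ext h), v.2⟩

/-! ### Concrete obstructions -/

/-- Three nonface triples in four vertices. -/
theorem bad_K {Δ : Set (Finset V)} (hΔ : IsComplex Δ) (p : Fin 4 → V) (hp : Function.Injective p)
    (hpair : ∀ i j, ({p i, p j} : Finset V) ∈ Δ)
    (h1 : ({0, 1, 3} : Finset (Fin 4)).image p ∉ Δ) (h2 : ({0, 2, 3} : Finset (Fin 4)).image p ∉ Δ)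
    (h3 : ({1, 2, 3} : Finset (Fin 4)).image p ∉ Δ) : ¬ MarkovDegreeLE Δ 4 := by
  refine bad_del codeOk_four hΔ p hp _ _ lowK upK chkK ?_ ?_
  · intro G hG hG'
    have key : ∀ G : Finset (Fin 4), upK G = false → {0, 1, 3} ⊆ G ∨ {0, 2, 3} ⊆ G ∨
        {1, 2, 3} ⊆ G := by decide +kernel
    rcases key G hG with h | h | h
    · exact h1 (hΔ.down _ hG' _ (Finset.image_subset_image h))
    · exact h2 (hΔ.down _ hG' _ (Finset.image_subset_image h))
    · exact h3 (hΔ.down _ hG' _ (Finset.image_subset_image h))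
  · intro G hG
    simp only [lowK, List.mem_cons, List.not_mem_nil, or_false] at hG
    rcases hG with rfl | rfl | rfl | rfl | rfl | rfl <;>
      simpa [Finset.image_insert] using hpair _ _

/-- Every nonface contains a nonface triple. -/
def Trip {k : ℕ} (Δ : Set (Finset V)) (p : Fin k → V) : Prop :=
  ∀ G : Finset (Fin k), G.image p ∉ Δ → ∃ T : Finset (Fin k), T ⊆ G ∧ T.card = 3 ∧ T.image p ∉ Δ

/-- The first complex on five vertices. -/
theorem bad_T {Δ : Set (Finset V)} (hΔ : IsComplex Δ) (p : Fin 5 → V) (hp : Function.Injective p)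
    (hlow : ∀ G ∈ lowT, G.image p ∈ Δ)
    (h : ∀ T : Finset (Fin 5), T.card = 3 → upT T = false → T.image p ∉ Δ) :
    ¬ MarkovDegreeLE Δ 4 := by
  refine bad_del codeOk_five hΔ p hp _ _ lowT upT chkT ?_ hlow
  intro G hG hG'
  have key : ∀ G : Finset (Fin 5), upT G = false → ∃ T : Finset (Fin 5), T ⊆ G ∧ T.card = 3 ∧
      upT T = false := by decide +kernel
  obtain ⟨T, hT, hT', hT''⟩ := key G hG
  exact h T hT' hT'' (hΔ.down _ hG' _ (Finset.image_subset_image hT))

/-- The Moebius strip with five vertices. -/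
theorem bad_M {Δ : Set (Finset V)} (hΔ : IsComplex Δ) (p : Fin 5 → V) (hp : Function.Injective p)
    (hlow : ∀ G ∈ lowM, G.image p ∈ Δ)
    (h : ∀ T : Finset (Fin 5), T.card = 3 → upM T = false → T.image p ∉ Δ) :
    ¬ MarkovDegreeLE Δ 4 := by
  refine bad_del codeOk_five hΔ p hp _ _ lowM upM chkM ?_ hlow
  intro G hG hG'
  have key : ∀ G : Finset (Fin 5), upM G = false → ∃ T : Finset (Fin 5), T ⊆ G ∧ T.card = 3 ∧
      upM T = false := by decide +kernel
  obtain ⟨T, hT, hT', hT''⟩ := key G hG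
  exact h T hT' hT'' (hΔ.down _ hG' _ (Finset.image_subset_image hT))

end Pool.Agent.Lib.MP_73b196_co
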