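import Pool.Agent.Lib.MP_73b196_co.Nec

/-!
# Binary hierarchical models with Markov bases of degree at most 4: complexes in which any two
# vertices are adjacent

`Δ` is a simplicial complex on the vertex set `Fin n`; `MarkovDegreeLE Δ 4` says that the binary
hierarchical model of `Δ` has a Markov basis all of whose moves have degree at most `4` (all
definitions are in `Pool/Agent/Lib/MP_73b196_co/Defs.lean`).

`result`, first part: if the Markov degree of `Δ` is at most `4` and `C` is a set of pairwise adjacent
vertices, then `C` is a face, or there are two vertices `x, y` of `C` such that every nonface inside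
`C` contains a nonface of the form `{x, y, b}`.

`result`, second part: if any two vertices of `Δ` are adjacent, this condition for the set of all
vertices is also sufficient. So a complex with complete 1-skeleton has Markov degree at most `4` if
and only if it is a simplex or has exactly the three facets `V ∖ {x}`, `V ∖ {y}`, `V ∖ B`, where
`B ≠ ∅`, `x ≠ y`, `x, y ∉ B`.

Outline of the proof. The tables supported on a contraction of an induced subcomplex form a face of
the semigroup, so a table without moves of degree at most `4` stays so in `Δ`. Obstructions: the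
boundary of a simplex with at least four vertices (as a contraction), the complete graph on four
vertices with at most one filled triangle, `{1234, 125, 345}` and the 5-vertex Moebius strip; for the
last three the fibre of a table with six elements is enumerated by a verified search. If the degree is
at most `4`, these obstructions imply that the minimal nonfaces in `C` are triples, that two of them
have exactly two common vertices, and that all of them contain a common pair. Conversely, for a
complex with the facets `V ∖ {x}`, `V ∖ {y}`, `V ∖ B` the difference of two tables with the same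
marginals is a sum of moves of degree `4` without cancellation.
-/

set_option autoImplicit false

namespace Pool.Agent.Lib.MP_73b196_co.CompleteSkeleton

open Pool.Agent.Lib.MP_73b196_co

/-- If the set of all vertices is a face, there are no moves. -/
theorem le_of_univ {n : ℕ} {Δ : Set (Finset (Fin n))} (h : Finset.univ ∈ Δ) :
    MarkovDegreeLE Δ 4 := by
  refine ⟨∅, ⟨Set.finite_empty, fun m hm => absurd hm (Set.notMem_empty m), ?_⟩,
    fun m hm => absurd hm (Set.notMem_empty m)⟩
  intro x y hxy
  have h1 : x = y := by
    apply toInt_injective
    funext i
    have h2 := (same_iff Δ x y).1 hxy Finset.univ h i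
    have h3 : ∀ u : (Fin n → Bool) → ℤ, mg Finset.univ u i = u i := by
      intro u
      unfold mg
      rw [Finset.sum_eq_single i]
      · rw [if_pos (fun v _ => rfl)]
      · intro j _ hj
        rw [if_neg]
        intro h4
        exact hj (funext fun v => h4 v (Finset.mem_univ v))
      · intro h4
        exact absurd (Finset.mem_univ i) h4
    rwa [h3, h3] at h2
  rw [h1]

/-- Complexes of Markov degree at most four: a necessary condition on sets of pairwise adjacent
vertices, and a characterisation if any two vertices are adjacent. -/
theorem result (n : ℕ) (Δ : Set (Finset (Fin n))) (hΔ : IsComplex Δ) :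
    (MarkovDegreeLE Δ 4 → ∀ C : Finset (Fin n), (∀ a ∈ C, ∀ b ∈ C, {a, b} ∈ Δ) →
      C ∈ Δ ∨ ∃ x ∈ C, ∃ y ∈ C, x ≠ y ∧
        ∀ F ⊆ C, F ∉ Δ → x ∈ F ∧ y ∈ F ∧ ∃ b ∈ F, {x, y, b} ∉ Δ) ∧
    ((∀ a b, {a, b} ∈ Δ) → (MarkovDegreeLE Δ 4 ↔
      Finset.univ ∈ Δ ∨ ∃ x y, x ≠ y ∧ ∀ F, F ∉ Δ → x ∈ F ∧ y ∈ F ∧ ∃ b ∈ F, {x, y, b} ∉ Δ)) := by
  refine ⟨fun h C hC => nec hΔ h C hC, fun hpair => ⟨fun h => ?_, ?_⟩⟩
  · rcases nec hΔ h Finset.univ (fun a _ b _ => hpair a b) with h1 | ⟨x, -, y, -, hxy, h1⟩
    · exact Or.inl h1
    · exact Or.inr ⟨x, y, hxy, fun F hF => h1 F (Finset.subset_univ F) hF⟩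
  · rintro (h | ⟨x, y, hxy, h⟩)
    · exact le_of_univ h
    · exact suff hΔ hxy (hpair x y) h

end Pool.Agent.Lib.MP_73b196_co.CompleteSkeleton
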