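import Mathlib

/-!
# Binary hierarchical models: definitions

Cells are functions `V → Bool` on a finite vertex set `V`, tables are functions from the cells to the
integers; `marginal F u` is the `F`-marginal of the table `u`.
-/

set_option autoImplicit false

namespace Pool.Agent.Lib.MP_73b196_co

variable {V : Type} [Fintype V] [DecidableEq V]

/-- The `F`-marginal of the table `u` at `j ∈ {0,1}^F`: the sum of `u` over the cells `i` which
restrict to `j` on `F`. -/
def marginal (F : Finset V) (u : (V → Bool) → ℤ) (j : {v // v ∈ F} → Bool) : ℤ :=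
  ∑ i ∈ Finset.univ.filter (fun i : V → Bool => ∀ v : {v // v ∈ F}, i v.1 = j v), u i

/-- A simplicial complex with vertex set `V`: a set of subsets of `V` (the faces) which contains the
empty set and all the sets `{v}`, and which is closed under taking subsets. -/
structure IsComplex (Δ : Set (Finset V)) : Prop where
  empty : ∅ ∈ Δ
  vertex : ∀ v, {v} ∈ Δ
  down : ∀ F ∈ Δ, ∀ G, G ⊆ F → G ∈ Δ

/-- A move: a nonzero table all of whose marginals with respect to faces of `Δ` are zero. -/
def IsMove (Δ : Set (Finset V)) (u : (V → Bool) → ℤ) : Prop :=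
  u ≠ 0 ∧ ∀ F ∈ Δ, ∀ j, marginal F u j = 0

/-- The degree of a move: the sum of its positive entries. -/
def degree (u : (V → Bool) → ℤ) : ℤ := ∑ i, max (u i) 0

/-- A nonnegative table as a table with integer entries. -/
def toInt (x : (V → Bool) → ℕ) : (V → Bool) → ℤ := fun i => (x i : ℤ)

/-- Two nonnegative tables have the same marginals. -/
def SameMarginals (Δ : Set (Finset V)) (x y : (V → Bool) → ℕ) : Prop :=
  ∀ F ∈ Δ, ∀ j, marginal F (toInt x) j = marginal F (toInt y) j

/-- One step `x ↦ y = x ± m` with `m ∈ B`, `x` and `y` nonnegative. -/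
def Step (B : Set ((V → Bool) → ℤ)) (x y : (V → Bool) → ℕ) : Prop :=
  ∃ m ∈ B, toInt y = toInt x + m ∨ toInt y = toInt x - m

/-- A Markov basis: a finite set of moves such that any two nonnegative tables with the same
marginals are joined by a sequence of steps. -/
def IsMarkovBasis (Δ : Set (Finset V)) (B : Set ((V → Bool) → ℤ)) : Prop :=
  B.Finite ∧ (∀ m ∈ B, IsMove Δ m) ∧
    ∀ x y : (V → Bool) → ℕ, SameMarginals Δ x y → Relation.ReflTransGen (Step B) x y

/-- The complex has Markov degree at most `d`. -/
def MarkovDegreeLE (Δ : Set (Finset V)) (d : ℤ) : Prop :=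
  ∃ B, IsMarkovBasis Δ B ∧ ∀ m ∈ B, degree m ≤ d

end Pool.Agent.Lib.MP_73b196_co
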