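import Pool.Agent.Lib.MP_73b196_co.Basic

/-!
# Deletions and contractions

Let `c : V → Option W` be a surjective partial map such that the vertices mapped to the same element
of `W` are pairwise adjacent. The tables of `Δ` which are supported on the cells `i` with `i v = 0` if
`c v = none` and `i u = i v` if `c u = c v` correspond to the tables of the complex with faces `c F`.
-/

set_option autoImplicit false

namespace Pool.Agent.Lib.MP_73b196_co

variable {V W : Type} [Fintype V] [DecidableEq V] [Fintype W] [DecidableEq W]

/-- The cell of `V` given by a cell of `W`. -/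
def pull (c : V → Option W) (j : W → Bool) : V → Bool := fun v => (c v).elim false j

/-- The image of a face. -/
def img (c : V → Option W) (F : Finset V) : Finset W :=
  Finset.univ.filter fun w => ∃ v ∈ F, c v = some w

/-- The table of `V` given by a table of `W`. -/
def push (c : V → Option W) (x : (W → Bool) → ℕ) : (V → Bool) → ℕ :=
  fun i => ∑ j, if pull c j = i then x j else 0

variable (c : V → Option W)

omit [Fintype V] [DecidableEq V] [Fintype W] [DecidableEq W] in
theorem pull_some {v : V} {w : W} (h : c v = some w) (j : W → Bool) : pull c j v = j w := by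
  simp [pull, h]

omit [Fintype V] [DecidableEq V] [Fintype W] [DecidableEq W] in
theorem pull_none {v : V} (h : c v = none) (j : W → Bool) : pull c j v = false := by
  simp [pull, h]

omit [Fintype V] [DecidableEq V] [Fintype W] [DecidableEq W] in
theorem pull_inj (hs : ∀ w, ∃ v, c v = some w) : Function.Injective (pull c) := by
  intro j j' h
  funext w
  obtain ⟨v, hv⟩ := hs w
  rw [← pull_some c hv j, ← pull_some c hv j', h]

omit [Fintype V] [DecidableEq V] in
theorem mem_img {F : Finset V} {w : W} : w ∈ img c F ↔ ∃ v ∈ F, c v = some w := by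
  simp [img]

omit [Fintype V] [DecidableEq V] in
theorem agree_iff (F : Finset V) (j j0 : W → Bool) :
    (∀ v ∈ F, pull c j v = pull c j0 v) ↔ ∀ w ∈ img c F, j w = j0 w := by
  constructor
  · intro h w hw
    obtain ⟨v, hv, hvw⟩ := (mem_img c).1 hw
    rw [← pull_some c hvw j, ← pull_some c hvw j0, h v hv]
  · intro h v hv
    rcases hc : c v with _ | w
    · rw [pull_none c hc, pull_none c hc]
    · rw [pull_some c hc, pull_some c hc]
      exact h w ((mem_img c).2 ⟨v, hv, hc⟩)

theorem mg_push (F : Finset V) (x : (W → Bool) → ℕ) (i0 : V → Bool) :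
    mg F (toInt (push c x)) i0 =
      ∑ j, if (∀ v ∈ F, pull c j v = i0 v) then (x j : ℤ) else 0 := by
  unfold mg toInt push
  have h1 : ∀ i : V → Bool, (if (∀ v ∈ F, i v = i0 v) then
      ((∑ j, if pull c j = i then x j else 0 : ℕ) : ℤ) else 0) =
      ∑ j, if pull c j = i then (if (∀ v ∈ F, i v = i0 v) then (x j : ℤ) else 0) else 0 := by
    intro i
    push_cast
    split_ifs with h
    · rfl
    · symm
      apply Finset.sum_eq_zero
      intro j _
      split_ifs <;> rfl
  rw [Finset.sum_congr rfl (fun i _ => h1 i), Finset.sum_comm]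
  refine Finset.sum_congr rfl (fun j _ => ?_)
  rw [Finset.sum_ite_eq]
  simp

theorem mg_push_pull (F : Finset V) (x : (W → Bool) → ℕ) (j0 : W → Bool) :
    mg F (toInt (push c x)) (pull c j0) = mg (img c F) (toInt x) j0 := by
  rw [mg_push]
  unfold mg toInt
  refine Finset.sum_congr rfl (fun j _ => ?_)
  simp only [agree_iff]

theorem mg_push_congr (F : Finset V) (x y : (W → Bool) → ℕ)
    (h : ∀ j0, mg (img c F) (toInt x) j0 = mg (img c F) (toInt y) j0) (i0 : V → Bool) :
    mg F (toInt (push c x)) i0 = mg F (toInt (push c y)) i0 := by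
  by_cases hex : ∃ j0, ∀ v ∈ F, pull c j0 v = i0 v
  · obtain ⟨j0, hj0⟩ := hex
    have h1 : ∀ u : (V → Bool) → ℤ, mg F u i0 = mg F u (pull c j0) := by
      intro u
      unfold mg
      refine Finset.sum_congr rfl (fun i _ => ?_)
      have : (∀ v ∈ F, i v = i0 v) ↔ ∀ v ∈ F, i v = pull c j0 v :=
        forall₂_congr (fun v hv => by rw [hj0 v hv])
      simp only [this]
    rw [h1, h1, mg_push_pull, mg_push_pull, h]
  · push Not at hex
    rw [mg_push, mg_push]
    refine Finset.sum_congr rfl (fun j _ => ?_)
    obtain ⟨v, hv, hv'⟩ := hex j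
    rw [if_neg (fun h => hv' (h v hv)), if_neg (fun h => hv' (h v hv))]

theorem push_pull (hs : ∀ w, ∃ v, c v = some w) (x : (W → Bool) → ℕ) (j : W → Bool) :
    push c x (pull c j) = x j := by
  unfold push
  rw [Finset.sum_eq_single j]
  · rw [if_pos rfl]
  · intro j' _ hne
    rw [if_neg (fun h => hne (pull_inj c hs h))]
  · intro h
    exact absurd (Finset.mem_univ _) h

/-- A nonnegative table with a zero marginal vanishes there. -/
theorem eq_zero_of_mg (F : Finset V) (z : (V → Bool) → ℕ) (i : V → Bool)
    (h : mg F (toInt z) i = 0) : z i = 0 := by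
  unfold mg toInt at h
  have h1 := (Finset.sum_eq_zero_iff_of_nonneg (fun k _ => by split_ifs <;> positivity)).1 h i
    (Finset.mem_univ i)
  rw [if_pos (fun v _ => rfl)] at h1
  exact_mod_cast h1

/-- The tables with the same marginals as `push c x` are of the form `push c z`. -/
theorem exists_push {Δ : Set (Finset V)} (hs : ∀ w, ∃ v, c v = some w)
    (hnone : ∀ v, c v = none → ({v} : Finset V) ∈ Δ)
    (hsome : ∀ u v w, c u = some w → c v = some w → ({u, v} : Finset V) ∈ Δ)
    (x : (W → Bool) → ℕ) (z : (V → Bool) → ℕ) (hz : SameMarginals Δ (push c x) z) :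
    z = push c (fun j => z (pull c j)) := by
  rw [same_iff] at hz
  have h0 : ∀ i, (∀ j, pull c j ≠ i) → z i = 0 := by
    intro i hi
    -- `i` is not in the range
    by_cases h1 : ∃ v, c v = none ∧ i v = true
    · obtain ⟨v, hv, hiv⟩ := h1
      apply eq_zero_of_mg {v}
      rw [← hz _ (hnone v hv), mg_push]
      apply Finset.sum_eq_zero
      intro j _
      rw [if_neg]
      intro h
      have := h v (Finset.mem_singleton_self v)
      rw [pull_none c hv, hiv] at this
      exact absurd this (by decide)
    · push Not at h1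
      by_cases h2 : ∃ u v w, c u = some w ∧ c v = some w ∧ i u ≠ i v
      · obtain ⟨u, v, w, hu, hv, huv⟩ := h2
        apply eq_zero_of_mg {u, v}
        rw [← hz _ (hsome u v w hu hv), mg_push]
        apply Finset.sum_eq_zero
        intro j _
        rw [if_neg]
        intro h
        apply huv
        rw [← h u (by simp), ← h v (by simp), pull_some c hu, pull_some c hv]
      · push Not at h2
        exfalso
        choose r hr using hs
        apply hi (fun w => i (r w))
        funext v
        rcases hc : c v with _ | w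
        · rw [pull_none c hc]
          have := h1 v hc
          revert this
          cases i v <;> simp
        · rw [pull_some c hc]
          exact h2 _ _ w (hr w) hc
  funext i
  by_cases hi : ∃ j, pull c j = i
  · obtain ⟨j, rfl⟩ := hi
    rw [push_pull c hs]
  · push Not at hi
    rw [h0 i hi]
    unfold push
    symm
    apply Finset.sum_eq_zero
    intro j _
    rw [if_neg (hi j)]

/-- Transfer of isolated tables. -/
theorem bad_of_embed {Δ : Set (Finset V)} (hΔ : IsComplex Δ) (hs : ∀ w, ∃ v, c v = some w)
    (hsome : ∀ u v w, c u = some w → c v = some w → ({u, v} : Finset V) ∈ Δ) (d : ℤ)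
    (x y : (W → Bool) → ℕ) (hne : x ≠ y)
    (hxy : ∀ F ∈ Δ, ∀ j0, mg (img c F) (toInt x) j0 = mg (img c F) (toInt y) j0)
    (hiso : ∀ z : (W → Bool) → ℕ,
      (∀ G : Finset W, (∃ F ∈ Δ, G ⊆ img c F) → ∀ j0, mg G (toInt x) j0 = mg G (toInt z) j0) →
      z ≠ x → d < degree (toInt z - toInt x)) :
    ¬ MarkovDegreeLE Δ d := by
  refine not_le_of_isolated hΔ.empty d (push c x) (push c y) ?_ ?_ ?_
  · rw [same_iff]
    intro F hF i0
    exact mg_push_congr c F x y (hxy F hF) i0
  · intro h
    apply hne
    funext j
    rw [← push_pull c hs x j, ← push_pull c hs y j, h]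
  · intro z hz hzx
    have hz' := exists_push c hs (fun v _ => hΔ.vertex v) hsome x z hz
    set z' : (W → Bool) → ℕ := fun j => z (pull c j) with hzdef
    have hsame := (same_iff Δ _ _).1 hz
    have h1 : ∀ G : Finset W, (∃ F ∈ Δ, G ⊆ img c F) →
        ∀ j0, mg G (toInt x) j0 = mg G (toInt z') j0 := by
      rintro G ⟨F, hF, hG⟩ j0
      classical
      set F' : Finset V := F.filter fun v => ∃ w ∈ G, c v = some w with hF'
      have h2 : F' ∈ Δ := hΔ.down F hF F' (Finset.filter_subset _ _)
      have h3 : img c F' = G := by
        ext w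
        rw [mem_img]
        constructor
        · rintro ⟨v, hv, hvw⟩
          rw [hF', Finset.mem_filter] at hv
          obtain ⟨-, w', hw', hv'⟩ := hv
          rw [hvw] at hv'
          rwa [Option.some.inj hv']
        · intro hw
          obtain ⟨v, hv, hvw⟩ := (mem_img c).1 (hG hw)
          exact ⟨v, by rw [hF', Finset.mem_filter]; exact ⟨hv, w, hw, hvw⟩, hvw⟩
      rw [← h3, ← mg_push_pull, ← mg_push_pull, ← hz']
      exact hsame F' h2 _
    have h2 : z' ≠ x := by
      intro h
      apply hzx
      rw [hz', h]
    refine lt_of_lt_of_le (hiso z' h1 h2) ?_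
    unfold degree
    have h3 : ∀ j, max ((toInt z' - toInt x) j) 0 =
        max ((toInt z - toInt (push c x)) (pull c j)) 0 := by
      intro j
      simp only [Pi.sub_apply, toInt, hzdef, push_pull c hs]
    rw [Finset.sum_congr rfl (fun j _ => h3 j)]
    rw [← Finset.sum_image (f := fun i => max ((toInt z - toInt (push c x)) i) 0)
      (g := pull c) (s := Finset.univ) (fun a _ b _ h => pull_inj c hs h)]
    exact Finset.sum_le_sum_of_subset_of_nonneg (Finset.subset_univ _)
      (fun i _ _ => le_max_right _ _)

end Pool.Agent.Lib.MP_73b196_co
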