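import Pool.Agent.Lib.MP_73b196_co.Cases

/-!
# Two nonface triples which do not have two common vertices
-/

set_option autoImplicit false
set_option linter.unusedSimpArgs false

namespace Pool.Agent.Lib.MP_73b196_co

variable {V : Type} [Fintype V] [DecidableEq V]

section

variable {Δ : Set (Finset V)} {p : Fin 5 → V}

omit [Fintype V] in
/-- Every set without nonface triples is a face. -/
theorem face_of_trip {k : ℕ} {p : Fin k → V} (ht : Trip Δ p) (G : Finset (Fin k))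
    (h : ∀ T ⊆ G, T.card = 3 → T.image p ∈ Δ) : G.image p ∈ Δ := by
  by_contra h1
  obtain ⟨T, hT, hT', hT''⟩ := ht G h1
  exact hT'' (h T hT hT')

/-- Three nonface triples in a set of four among five vertices. -/
theorem not_K (hMD : MarkovDegreeLE Δ 4) (hΔ : IsComplex Δ) (hp : Function.Injective p)
    (hpair : ∀ i j, ({p i, p j} : Finset V) ∈ Δ) (s : Fin 4 → Fin 5) (hs : Function.Injective s)
    (A B C : Finset (Fin 5)) (hA : ({0, 1, 3} : Finset (Fin 4)).image s = A)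
    (hB : ({0, 2, 3} : Finset (Fin 4)).image s = B) (hC : ({1, 2, 3} : Finset (Fin 4)).image s = C) :
    ¬ (A.image p ∉ Δ ∧ B.image p ∉ Δ ∧ C.image p ∉ Δ) := by
  rintro ⟨h1, h2, h3⟩
  refine bad_K hΔ (p ∘ s) (hp.comp hs) (fun i j => hpair _ _) ?_ ?_ ?_ hMD
  · rwa [← Finset.image_image, hA]
  · rwa [← Finset.image_image, hB]
  · rwa [← Finset.image_image, hC]

/-- Merge `u` and `v` (test): `q` has the fibres `{u, v}` and three points. -/
theorem not_con (hMD : MarkovDegreeLE Δ 4) (hΔ : IsComplex Δ) (hp : Function.Injective p)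
    (hpair : ∀ i j, ({p i, p j} : Finset V) ∈ Δ) (q : Fin 5 → Fin 4)
    (hq : ∀ w, ∃ i, q i = w) (M N : Finset (Fin 5)) (hM : M.image p ∉ Δ) (hN : N.image p ∉ Δ)
    (hup : ∀ G : Finset (Fin 5), G.image q = Finset.univ → M ⊆ G ∨ N ⊆ G) :
    ¬ ∀ w, ∃ G : Finset (Fin 5), G.image p ∈ Δ ∧ Finset.univ.erase w ⊆ G.image q := by
  intro h
  refine bad_con le_rfl hΔ p hp q hq (fun i j _ => hpair i j) ?_ h hMD
  intro G hG hG'
  rcases hup G hG with h1 | h1
  · exact hM (hΔ.down _ hG' _ (Finset.image_subset_image h1))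
  · exact hN (hΔ.down _ hG' _ (Finset.image_subset_image h1))

/-- A copy of the first complex. -/
theorem not_T (hMD : MarkovDegreeLE Δ 4) (hΔ : IsComplex Δ) (hp : Function.Injective p)
    (s : Fin 5 → Fin 5) (hs : Function.Injective s)
    (hlow : ∀ G ∈ lowT, (G.image s).image p ∈ Δ)
    (h : ∀ T : Finset (Fin 5), T.card = 3 → upT T = false → (T.image s).image p ∉ Δ) : False := by
  refine bad_T hΔ (p ∘ s) (hp.comp hs) (fun G hG => ?_) (fun T hT hT' => ?_) hMD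
  · rw [← Finset.image_image]
    exact hlow G hG
  · rw [← Finset.image_image]
    exact h T hT hT'

/-- A copy of the Moebius strip. -/
theorem not_M (hMD : MarkovDegreeLE Δ 4) (hΔ : IsComplex Δ) (hp : Function.Injective p)
    (s : Fin 5 → Fin 5) (hs : Function.Injective s)
    (hlow : ∀ G ∈ lowM, (G.image s).image p ∈ Δ)
    (h : ∀ T : Finset (Fin 5), T.card = 3 → upM T = false → (T.image s).image p ∉ Δ) : False := by
  refine bad_M hΔ (p ∘ s) (hp.comp hs) (fun G hG => ?_) (fun T hT hT' => ?_) hMD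
  · rw [← Finset.image_image]
    exact hlow G hG
  · rw [← Finset.image_image]
    exact h T hT hT'

end

omit [Fintype V] in
theorem con_of_list {Δ : Set (Finset V)} {p : Fin 5 → V} {q : Fin 5 → Fin 4}
    (L : List (Finset (Fin 5))) (hL : ∀ G ∈ L, G.image p ∈ Δ) (w : Fin 4)
    (h : ∀ w, ∃ G ∈ L, Finset.univ.erase w ⊆ G.image q) :
    ∃ G : Finset (Fin 5), G.image p ∈ Δ ∧ Finset.univ.erase w ⊆ G.image q := by
  obtain ⟨G, hG, hG'⟩ := h w
  exact ⟨G, hL G hG, hG'⟩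

/-- Two nonface triples with exactly one common vertex. -/
theorem five {Δ : Set (Finset V)} {p : Fin 5 → V} (hMD : MarkovDegreeLE Δ 4) (hΔ : IsComplex Δ)
    (hp : Function.Injective p) (hpair : ∀ i j, ({p i, p j} : Finset V) ∈ Δ) (ht : Trip Δ p)
    (h1 : ({0, 2, 4} : Finset (Fin 5)).image p ∉ Δ)
    (h2 : ({1, 3, 4} : Finset (Fin 5)).image p ∉ Δ) : False := by
  set c0 : Prop := ({0, 1, 4} : Finset (Fin 5)).image p ∈ Δ with hc0
  set c1 : Prop := ({0, 3, 4} : Finset (Fin 5)).image p ∈ Δ with hc1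
  set c2 : Prop := ({1, 2, 4} : Finset (Fin 5)).image p ∈ Δ with hc2
  set c3 : Prop := ({2, 3, 4} : Finset (Fin 5)).image p ∈ Δ with hc3
  set t0 : Prop := ({0, 1, 2} : Finset (Fin 5)).image p ∈ Δ with ht0
  set t1 : Prop := ({0, 1, 3} : Finset (Fin 5)).image p ∈ Δ with ht1
  set t2 : Prop := ({0, 2, 3} : Finset (Fin 5)).image p ∈ Δ with ht2
  set t3 : Prop := ({1, 2, 3} : Finset (Fin 5)).image p ∈ Δ with ht3
  have kt0t1t2 : ¬ (¬ t0 ∧ ¬ t1 ∧ ¬ t2) := fun h =>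
    not_K hMD hΔ hp hpair ![1, 2, 3, 0] (by decide) {0, 1, 2} {0, 1, 3} {0, 2, 3}
      (by decide) (by decide) (by decide) ⟨h.1, h.2.1, h.2.2⟩
  have kt0t1t3 : ¬ (¬ t0 ∧ ¬ t1 ∧ ¬ t3) := fun h =>
    not_K hMD hΔ hp hpair ![0, 2, 3, 1] (by decide) {0, 1, 2} {0, 1, 3} {1, 2, 3}
      (by decide) (by decide) (by decide) ⟨h.1, h.2.1, h.2.2⟩
  have kt0t2t3 : ¬ (¬ t0 ∧ ¬ t2 ∧ ¬ t3) := fun h =>
    not_K hMD hΔ hp hpair ![0, 1, 3, 2] (by decide) {0, 1, 2} {0, 2, 3} {1, 2, 3}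
      (by decide) (by decide) (by decide) ⟨h.1, h.2.1, h.2.2⟩
  have kt1t2t3 : ¬ (¬ t1 ∧ ¬ t2 ∧ ¬ t3) := fun h =>
    not_K hMD hΔ hp hpair ![0, 1, 2, 3] (by decide) {0, 1, 3} {0, 2, 3} {1, 2, 3}
      (by decide) (by decide) (by decide) ⟨h.1, h.2.1, h.2.2⟩
  have kt0c0 : ¬ (¬ t0 ∧ ¬ c0) := fun h =>
    not_K hMD hΔ hp hpair ![1, 2, 4, 0] (by decide) {0, 1, 2} {0, 1, 4} {0, 2, 4}
      (by decide) (by decide) (by decide) ⟨h.1, h.2, h1⟩
  have kt0c2 : ¬ (¬ t0 ∧ ¬ c2) := fun h =>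
    not_K hMD hΔ hp hpair ![0, 1, 4, 2] (by decide) {0, 1, 2} {0, 2, 4} {1, 2, 4}
      (by decide) (by decide) (by decide) ⟨h.1, h1, h.2⟩
  have kc0c2 : ¬ (¬ c0 ∧ ¬ c2) := fun h =>
    not_K hMD hΔ hp hpair ![0, 1, 2, 4] (by decide) {0, 1, 4} {0, 2, 4} {1, 2, 4}
      (by decide) (by decide) (by decide) ⟨h.1, h1, h.2⟩
  have kt1c0 : ¬ (¬ t1 ∧ ¬ c0) := fun h =>
    not_K hMD hΔ hp hpair ![0, 3, 4, 1] (by decide) {0, 1, 3} {0, 1, 4} {1, 3, 4}
      (by decide) (by decide) (by decide) ⟨h.1, h.2, h2⟩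
  have kt1c1 : ¬ (¬ t1 ∧ ¬ c1) := fun h =>
    not_K hMD hΔ hp hpair ![0, 1, 4, 3] (by decide) {0, 1, 3} {0, 3, 4} {1, 3, 4}
      (by decide) (by decide) (by decide) ⟨h.1, h.2, h2⟩
  have kc0c1 : ¬ (¬ c0 ∧ ¬ c1) := fun h =>
    not_K hMD hΔ hp hpair ![0, 1, 3, 4] (by decide) {0, 1, 4} {0, 3, 4} {1, 3, 4}
      (by decide) (by decide) (by decide) ⟨h.1, h.2, h2⟩
  have kt2c1 : ¬ (¬ t2 ∧ ¬ c1) := fun h =>
    not_K hMD hΔ hp hpair ![2, 3, 4, 0] (by decide) {0, 2, 3} {0, 2, 4} {0, 3, 4}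
      (by decide) (by decide) (by decide) ⟨h.1, h1, h.2⟩
  have kt2c3 : ¬ (¬ t2 ∧ ¬ c3) := fun h =>
    not_K hMD hΔ hp hpair ![0, 3, 4, 2] (by decide) {0, 2, 3} {0, 2, 4} {2, 3, 4}
      (by decide) (by decide) (by decide) ⟨h.1, h1, h.2⟩
  have kc1c3 : ¬ (¬ c1 ∧ ¬ c3) := fun h =>
    not_K hMD hΔ hp hpair ![0, 2, 3, 4] (by decide) {0, 2, 4} {0, 3, 4} {2, 3, 4}
      (by decide) (by decide) (by decide) ⟨h1, h.1, h.2⟩
  have kt3c2 : ¬ (¬ t3 ∧ ¬ c2) := fun h =>
    not_K hMD hΔ hp hpair ![2, 3, 4, 1] (by decide) {1, 2, 3} {1, 2, 4} {1, 3, 4}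
      (by decide) (by decide) (by decide) ⟨h.1, h.2, h2⟩
  have kt3c3 : ¬ (¬ t3 ∧ ¬ c3) := fun h =>
    not_K hMD hΔ hp hpair ![1, 2, 4, 3] (by decide) {1, 2, 3} {1, 3, 4} {2, 3, 4}
      (by decide) (by decide) (by decide) ⟨h.1, h2, h.2⟩
  have kc2c3 : ¬ (¬ c2 ∧ ¬ c3) := fun h =>
    not_K hMD hΔ hp hpair ![1, 2, 3, 4] (by decide) {1, 2, 4} {1, 3, 4} {2, 3, 4}
      (by decide) (by decide) (by decide) ⟨h.1, h2, h.2⟩
  have n01t2 : ¬ (c3 ∧ c2 ∧ c1 ∧ t2) := fun h =>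
    not_con hMD hΔ hp hpair ![0, 0, 1, 2, 3] (by decide) {0, 2, 4} {1, 3, 4} h1 h2 (by decide +kernel)
      (fun w => con_of_list [{2, 3, 4}, {1, 2, 4}, {0, 3, 4}, {0, 2, 3}] (by
        intro G hG
        simp only [List.mem_cons, List.not_mem_nil, or_false] at hG
        rcases hG with rfl | rfl | rfl | rfl
        exacts [h.1, h.2.1, h.2.2.1, h.2.2.2]) w (by decide +kernel))
  have n01t3 : ¬ (c3 ∧ c2 ∧ c1 ∧ t3) := fun h =>
    not_con hMD hΔ hp hpair ![0, 0, 1, 2, 3] (by decide) {0, 2, 4} {1, 3, 4} h1 h2 (by decide +kernel)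
      (fun w => con_of_list [{2, 3, 4}, {1, 2, 4}, {0, 3, 4}, {1, 2, 3}] (by
        intro G hG
        simp only [List.mem_cons, List.not_mem_nil, or_false] at hG
        rcases hG with rfl | rfl | rfl | rfl
        exacts [h.1, h.2.1, h.2.2.1, h.2.2.2]) w (by decide +kernel))
  have n03t0 : ¬ (c2 ∧ c0 ∧ c3 ∧ t0) := fun h =>
    not_con hMD hΔ hp hpair ![0, 1, 2, 0, 3] (by decide) {0, 2, 4} {1, 3, 4} h1 h2 (by decide +kernel)
      (fun w => con_of_list [{1, 2, 4}, {0, 1, 4}, {2, 3, 4}, {0, 1, 2}] (by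
        intro G hG
        simp only [List.mem_cons, List.not_mem_nil, or_false] at hG
        rcases hG with rfl | rfl | rfl | rfl
        exacts [h.1, h.2.1, h.2.2.1, h.2.2.2]) w (by decide +kernel))
  have n03t3 : ¬ (c2 ∧ c0 ∧ c3 ∧ t3) := fun h =>
    not_con hMD hΔ hp hpair ![0, 1, 2, 0, 3] (by decide) {0, 2, 4} {1, 3, 4} h1 h2 (by decide +kernel)
      (fun w => con_of_list [{1, 2, 4}, {0, 1, 4}, {2, 3, 4}, {1, 2, 3}] (by
        intro G hG
        simp only [List.mem_cons, List.not_mem_nil, or_false] at hG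
        rcases hG with rfl | rfl | rfl | rfl
        exacts [h.1, h.2.1, h.2.2.1, h.2.2.2]) w (by decide +kernel))
  have n12t1 : ¬ (c1 ∧ c0 ∧ c3 ∧ t1) := fun h =>
    not_con hMD hΔ hp hpair ![1, 0, 0, 2, 3] (by decide) {0, 2, 4} {1, 3, 4} h1 h2 (by decide +kernel)
      (fun w => con_of_list [{0, 3, 4}, {0, 1, 4}, {2, 3, 4}, {0, 1, 3}] (by
        intro G hG
        simp only [List.mem_cons, List.not_mem_nil, or_false] at hG
        rcases hG with rfl | rfl | rfl | rfl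
        exacts [h.1, h.2.1, h.2.2.1, h.2.2.2]) w (by decide +kernel))
  have n12t2 : ¬ (c1 ∧ c0 ∧ c3 ∧ t2) := fun h =>
    not_con hMD hΔ hp hpair ![1, 0, 0, 2, 3] (by decide) {0, 2, 4} {1, 3, 4} h1 h2 (by decide +kernel)
      (fun w => con_of_list [{0, 3, 4}, {0, 1, 4}, {2, 3, 4}, {0, 2, 3}] (by
        intro G hG
        simp only [List.mem_cons, List.not_mem_nil, or_false] at hG
        rcases hG with rfl | rfl | rfl | rfl
        exacts [h.1, h.2.1, h.2.2.1, h.2.2.2]) w (by decide +kernel))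
  have n23t0 : ¬ (c0 ∧ c1 ∧ c2 ∧ t0) := fun h =>
    not_con hMD hΔ hp hpair ![1, 2, 0, 0, 3] (by decide) {0, 2, 4} {1, 3, 4} h1 h2 (by decide +kernel)
      (fun w => con_of_list [{0, 1, 4}, {0, 3, 4}, {1, 2, 4}, {0, 1, 2}] (by
        intro G hG
        simp only [List.mem_cons, List.not_mem_nil, or_false] at hG
        rcases hG with rfl | rfl | rfl | rfl
        exacts [h.1, h.2.1, h.2.2.1, h.2.2.2]) w (by decide +kernel))
  have n23t1 : ¬ (c0 ∧ c1 ∧ c2 ∧ t1) := fun h =>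
    not_con hMD hΔ hp hpair ![1, 2, 0, 0, 3] (by decide) {0, 2, 4} {1, 3, 4} h1 h2 (by decide +kernel)
      (fun w => con_of_list [{0, 1, 4}, {0, 3, 4}, {1, 2, 4}, {0, 1, 3}] (by
        intro G hG
        simp only [List.mem_cons, List.not_mem_nil, or_false] at hG
        rcases hG with rfl | rfl | rfl | rfl
        exacts [h.1, h.2.1, h.2.2.1, h.2.2.2]) w (by decide +kernel))
  have T1 : ¬ (¬ c0 ∧ c1 ∧ c2 ∧ ¬ c3 ∧ t0 ∧ t1 ∧ t2 ∧ t3) := by
    rintro ⟨gc0, gc1, gc2, gc3, gt0, gt1, gt2, gt3⟩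
    refine not_T hMD hΔ hp ![0, 3, 1, 2, 4] (by decide) ?_ ?_
    · intro G hG
      simp only [lowT, List.mem_cons, List.not_mem_nil, or_false] at hG
      rcases hG with rfl | rfl | rfl
      · rw [show (({0, 1, 2, 3} : Finset (Fin 5)).image ![0, 3, 1, 2, 4]) = ({0, 1, 2, 3} : Finset (Fin 5)) by decide]
        refine face_of_trip ht _ (fun T hT hT3 => ?_)
        have key : ∀ T : Finset (Fin 5), T ⊆ {0, 1, 2, 3} → T.card = 3 → T = {0, 1, 2} ∨ T = {0, 1, 3} ∨ T = {0, 2, 3} ∨ T = {1, 2, 3} := by decide +kernel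
        rcases key T hT hT3 with rfl | rfl | rfl | rfl
        exacts [gt0, gt1, gt2, gt3]
      · rw [show (({0, 1, 4} : Finset (Fin 5)).image ![0, 3, 1, 2, 4]) = ({0, 3, 4} : Finset (Fin 5)) by decide]
        exact gc1
      · rw [show (({2, 3, 4} : Finset (Fin 5)).image ![0, 3, 1, 2, 4]) = ({1, 2, 4} : Finset (Fin 5)) by decide]
        exact gc2
    · intro T hT3 hT
      have key : ∀ T : Finset (Fin 5), T.card = 3 → upT T = false → T.image ![0, 3, 1, 2, 4] = ({0, 1, 4} : Finset (Fin 5)) ∨ T.image ![0, 3, 1, 2, 4] = ({0, 2, 4} : Finset (Fin 5)) ∨ T.image ![0, 3, 1, 2, 4] = ({1, 3, 4} : Finset (Fin 5)) ∨ T.image ![0, 3, 1, 2, 4] = ({2, 3, 4} : Finset (Fin 5)) := by decide +kernel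
      rcases key T hT3 hT with h | h | h | h <;> rw [h]
      exacts [gc0, h1, h2, gc3]
  have T2 : ¬ (c0 ∧ ¬ c1 ∧ ¬ c2 ∧ c3 ∧ t0 ∧ t1 ∧ t2 ∧ t3) := by
    rintro ⟨gc0, gc1, gc2, gc3, gt0, gt1, gt2, gt3⟩
    refine not_T hMD hΔ hp ![0, 1, 2, 3, 4] (by decide) ?_ ?_
    · intro G hG
      simp only [lowT, List.mem_cons, List.not_mem_nil, or_false] at hG
      rcases hG with rfl | rfl | rfl
      · rw [show (({0, 1, 2, 3} : Finset (Fin 5)).image ![0, 1, 2, 3, 4]) = ({0, 1, 2, 3} : Finset (Fin 5)) by decide]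
        refine face_of_trip ht _ (fun T hT hT3 => ?_)
        have key : ∀ T : Finset (Fin 5), T ⊆ {0, 1, 2, 3} → T.card = 3 → T = {0, 1, 2} ∨ T = {0, 1, 3} ∨ T = {0, 2, 3} ∨ T = {1, 2, 3} := by decide +kernel
        rcases key T hT hT3 with rfl | rfl | rfl | rfl
        exacts [gt0, gt1, gt2, gt3]
      · rw [show (({0, 1, 4} : Finset (Fin 5)).image ![0, 1, 2, 3, 4]) = ({0, 1, 4} : Finset (Fin 5)) by decide]
        exact gc0
      · rw [show (({2, 3, 4} : Finset (Fin 5)).image ![0, 1, 2, 3, 4]) = ({2, 3, 4} : Finset (Fin 5)) by decide]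
        exact gc3
    · intro T hT3 hT
      have key : ∀ T : Finset (Fin 5), T.card = 3 → upT T = false → T.image ![0, 1, 2, 3, 4] = ({0, 2, 4} : Finset (Fin 5)) ∨ T.image ![0, 1, 2, 3, 4] = ({0, 3, 4} : Finset (Fin 5)) ∨ T.image ![0, 1, 2, 3, 4] = ({1, 2, 4} : Finset (Fin 5)) ∨ T.image ![0, 1, 2, 3, 4] = ({1, 3, 4} : Finset (Fin 5)) := by decide +kernel
      rcases key T hT3 hT with h | h | h | h <;> rw [h]
      exacts [h1, gc1, gc2, h2]
  have M0 : ¬ (¬ c0 ∧ c1 ∧ c2 ∧ c3 ∧ t0 ∧ t1 ∧ ¬ t2 ∧ ¬ t3) := by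
    rintro ⟨gc0, gc1, gc2, gc3, gt0, gt1, gt2, gt3⟩
    refine not_M hMD hΔ hp ![0, 1, 3, 2, 4] (by decide) ?_ ?_
    · intro G hG
      simp only [lowM, List.mem_cons, List.not_mem_nil, or_false] at hG
      rcases hG with rfl | rfl | rfl | rfl | rfl
      · rw [show (({0, 1, 2} : Finset (Fin 5)).image ![0, 1, 3, 2, 4]) = ({0, 1, 3} : Finset (Fin 5)) by decide]
        exact gt1
      · rw [show (({0, 1, 3} : Finset (Fin 5)).image ![0, 1, 3, 2, 4]) = ({0, 1, 2} : Finset (Fin 5)) by decide]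
        exact gt0
      · rw [show (({0, 2, 4} : Finset (Fin 5)).image ![0, 1, 3, 2, 4]) = ({0, 3, 4} : Finset (Fin 5)) by decide]
        exact gc1
      · rw [show (({1, 3, 4} : Finset (Fin 5)).image ![0, 1, 3, 2, 4]) = ({1, 2, 4} : Finset (Fin 5)) by decide]
        exact gc2
      · rw [show (({2, 3, 4} : Finset (Fin 5)).image ![0, 1, 3, 2, 4]) = ({2, 3, 4} : Finset (Fin 5)) by decide]
        exact gc3
    · intro T hT3 hT
      have key : ∀ T : Finset (Fin 5), T.card = 3 → upM T = false → T.image ![0, 1, 3, 2, 4] = ({0, 1, 4} : Finset (Fin 5)) ∨ T.image ![0, 1, 3, 2, 4] = ({0, 2, 3} : Finset (Fin 5)) ∨ T.image ![0, 1, 3, 2, 4] = ({0, 2, 4} : Finset (Fin 5)) ∨ T.image ![0, 1, 3, 2, 4] = ({1, 2, 3} : Finset (Fin 5)) ∨ T.image ![0, 1, 3, 2, 4] = ({1, 3, 4} : Finset (Fin 5)) := by decide +kernel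
      rcases key T hT3 hT with h | h | h | h | h <;> rw [h]
      exacts [gc0, gt2, h1, gt3, h2]
  have M1 : ¬ (c0 ∧ ¬ c1 ∧ c2 ∧ c3 ∧ ¬ t0 ∧ t1 ∧ t2 ∧ ¬ t3) := by
    rintro ⟨gc0, gc1, gc2, gc3, gt0, gt1, gt2, gt3⟩
    refine not_M hMD hΔ hp ![0, 1, 3, 4, 2] (by decide) ?_ ?_
    · intro G hG
      simp only [lowM, List.mem_cons, List.not_mem_nil, or_false] at hG
      rcases hG with rfl | rfl | rfl | rfl | rfl
      · rw [show (({0, 1, 2} : Finset (Fin 5)).image ![0, 1, 3, 4, 2]) = ({0, 1, 3} : Finset (Fin 5)) by decide]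
        exact gt1
      · rw [show (({0, 1, 3} : Finset (Fin 5)).image ![0, 1, 3, 4, 2]) = ({0, 1, 4} : Finset (Fin 5)) by decide]
        exact gc0
      · rw [show (({0, 2, 4} : Finset (Fin 5)).image ![0, 1, 3, 4, 2]) = ({0, 2, 3} : Finset (Fin 5)) by decide]
        exact gt2
      · rw [show (({1, 3, 4} : Finset (Fin 5)).image ![0, 1, 3, 4, 2]) = ({1, 2, 4} : Finset (Fin 5)) by decide]
        exact gc2
      · rw [show (({2, 3, 4} : Finset (Fin 5)).image ![0, 1, 3, 4, 2]) = ({2, 3, 4} : Finset (Fin 5)) by decide]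
        exact gc3
    · intro T hT3 hT
      have key : ∀ T : Finset (Fin 5), T.card = 3 → upM T = false → T.image ![0, 1, 3, 4, 2] = ({0, 1, 2} : Finset (Fin 5)) ∨ T.image ![0, 1, 3, 4, 2] = ({0, 3, 4} : Finset (Fin 5)) ∨ T.image ![0, 1, 3, 4, 2] = ({0, 2, 4} : Finset (Fin 5)) ∨ T.image ![0, 1, 3, 4, 2] = ({1, 3, 4} : Finset (Fin 5)) ∨ T.image ![0, 1, 3, 4, 2] = ({1, 2, 3} : Finset (Fin 5)) := by decide +kernel
      rcases key T hT3 hT with h | h | h | h | h <;> rw [h]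
      exacts [gt0, gc1, h1, h2, gt3]
  have M2 : ¬ (c0 ∧ c1 ∧ ¬ c2 ∧ c3 ∧ t0 ∧ ¬ t1 ∧ ¬ t2 ∧ t3) := by
    rintro ⟨gc0, gc1, gc2, gc3, gt0, gt1, gt2, gt3⟩
    refine not_M hMD hΔ hp ![0, 1, 4, 2, 3] (by decide) ?_ ?_
    · intro G hG
      simp only [lowM, List.mem_cons, List.not_mem_nil, or_false] at hG
      rcases hG with rfl | rfl | rfl | rfl | rfl
      · rw [show (({0, 1, 2} : Finset (Fin 5)).image ![0, 1, 4, 2, 3]) = ({0, 1, 4} : Finset (Fin 5)) by decide]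
        exact gc0
      · rw [show (({0, 1, 3} : Finset (Fin 5)).image ![0, 1, 4, 2, 3]) = ({0, 1, 2} : Finset (Fin 5)) by decide]
        exact gt0
      · rw [show (({0, 2, 4} : Finset (Fin 5)).image ![0, 1, 4, 2, 3]) = ({0, 3, 4} : Finset (Fin 5)) by decide]
        exact gc1
      · rw [show (({1, 3, 4} : Finset (Fin 5)).image ![0, 1, 4, 2, 3]) = ({1, 2, 3} : Finset (Fin 5)) by decide]
        exact gt3
      · rw [show (({2, 3, 4} : Finset (Fin 5)).image ![0, 1, 4, 2, 3]) = ({2, 3, 4} : Finset (Fin 5)) by decide]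
        exact gc3
    · intro T hT3 hT
      have key : ∀ T : Finset (Fin 5), T.card = 3 → upM T = false → T.image ![0, 1, 4, 2, 3] = ({0, 1, 3} : Finset (Fin 5)) ∨ T.image ![0, 1, 4, 2, 3] = ({0, 2, 4} : Finset (Fin 5)) ∨ T.image ![0, 1, 4, 2, 3] = ({0, 2, 3} : Finset (Fin 5)) ∨ T.image ![0, 1, 4, 2, 3] = ({1, 2, 4} : Finset (Fin 5)) ∨ T.image ![0, 1, 4, 2, 3] = ({1, 3, 4} : Finset (Fin 5)) := by decide +kernel
      rcases key T hT3 hT with h | h | h | h | h <;> rw [h]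
      exacts [gt1, h1, gt2, gc2, h2]
  have M3 : ¬ (c0 ∧ c1 ∧ c2 ∧ ¬ c3 ∧ ¬ t0 ∧ ¬ t1 ∧ t2 ∧ t3) := by
    rintro ⟨gc0, gc1, gc2, gc3, gt0, gt1, gt2, gt3⟩
    refine not_M hMD hΔ hp ![0, 3, 4, 2, 1] (by decide) ?_ ?_
    · intro G hG
      simp only [lowM, List.mem_cons, List.not_mem_nil, or_false] at hG
      rcases hG with rfl | rfl | rfl | rfl | rfl
      · rw [show (({0, 1, 2} : Finset (Fin 5)).image ![0, 3, 4, 2, 1]) = ({0, 3, 4} : Finset (Fin 5)) by decide]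
        exact gc1
      · rw [show (({0, 1, 3} : Finset (Fin 5)).image ![0, 3, 4, 2, 1]) = ({0, 2, 3} : Finset (Fin 5)) by decide]
        exact gt2
      · rw [show (({0, 2, 4} : Finset (Fin 5)).image ![0, 3, 4, 2, 1]) = ({0, 1, 4} : Finset (Fin 5)) by decide]
        exact gc0
      · rw [show (({1, 3, 4} : Finset (Fin 5)).image ![0, 3, 4, 2, 1]) = ({1, 2, 3} : Finset (Fin 5)) by decide]
        exact gt3
      · rw [show (({2, 3, 4} : Finset (Fin 5)).image ![0, 3, 4, 2, 1]) = ({1, 2, 4} : Finset (Fin 5)) by decide]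
        exact gc2
    · intro T hT3 hT
      have key : ∀ T : Finset (Fin 5), T.card = 3 → upM T = false → T.image ![0, 3, 4, 2, 1] = ({0, 1, 3} : Finset (Fin 5)) ∨ T.image ![0, 3, 4, 2, 1] = ({0, 2, 4} : Finset (Fin 5)) ∨ T.image ![0, 3, 4, 2, 1] = ({0, 1, 2} : Finset (Fin 5)) ∨ T.image ![0, 3, 4, 2, 1] = ({2, 3, 4} : Finset (Fin 5)) ∨ T.image ![0, 3, 4, 2, 1] = ({1, 3, 4} : Finset (Fin 5)) := by decide +kernel
      rcases key T hT3 hT with h | h | h | h | h <;> rw [h]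
      exacts [gt1, h1, gt0, gc3, h2]
  have key : ∀ c0 c1 c2 c3 t0 t1 t2 t3 : Bool,
      ((t0 || t1 || t2) &&
      (t0 || t1 || t3) &&
      (t0 || t2 || t3) &&
      (t1 || t2 || t3) &&
      (t0 || c0) &&
      (t0 || c2) &&
      (c0 || c2) &&
      (t1 || c0) &&
      (t1 || c1) &&
      (c0 || c1) &&
      (t2 || c1) &&
      (t2 || c3) &&
      (c1 || c3) &&
      (t3 || c2) &&
      (t3 || c3) &&
      (c2 || c3) &&
      (!c3 || !c2 || !c1 || !t2) &&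
      (!c3 || !c2 || !c1 || !t3) &&
      (!c2 || !c0 || !c3 || !t0) &&
      (!c2 || !c0 || !c3 || !t3) &&
      (!c1 || !c0 || !c3 || !t1) &&
      (!c1 || !c0 || !c3 || !t2) &&
      (!c0 || !c1 || !c2 || !t0) &&
      (!c0 || !c1 || !c2 || !t1) &&
      (c0 || !c1 || !c2 || c3 || !t0 || !t1 || !t2 || !t3) &&
      (!c0 || c1 || c2 || !c3 || !t0 || !t1 || !t2 || !t3) &&
      (c0 || !c1 || !c2 || !c3 || !t0 || !t1 || t2 || t3) &&
      (!c0 || c1 || !c2 || !c3 || t0 || !t1 || !t2 || t3) &&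
      (!c0 || !c1 || c2 || !c3 || !t0 || t1 || t2 || !t3) &&
      (!c0 || !c1 || !c2 || c3 || t0 || t1 || !t2 || !t3)) = false := by
    decide +kernel
  classical
  have key2 := key (decide c0) (decide c1) (decide c2) (decide c3) (decide t0) (decide t1) (decide t2)
    (decide t3)
  rw [← Bool.not_eq_true] at key2
  apply key2
  have ekt0t1t2 : (decide t0 || decide t1 || decide t2) = true := by
    by_contra h
    simp only [Bool.or_eq_true, not_or, Bool.not_eq_true', decide_eq_true_eq,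
      decide_eq_false_iff_not, not_not] at h
    obtain ⟨⟨a0, a1⟩, a2⟩ := h
    exact kt0t1t2 ⟨a0, a1, a2⟩
  have ekt0t1t3 : (decide t0 || decide t1 || decide t3) = true := by
    by_contra h
    simp only [Bool.or_eq_true, not_or, Bool.not_eq_true', decide_eq_true_eq,
      decide_eq_false_iff_not, not_not] at h
    obtain ⟨⟨a0, a1⟩, a2⟩ := h
    exact kt0t1t3 ⟨a0, a1, a2⟩
  have ekt0t2t3 : (decide t0 || decide t2 || decide t3) = true := by
    by_contra h
    simp only [Bool.or_eq_true, not_or, Bool.not_eq_true', decide_eq_true_eq,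
      decide_eq_false_iff_not, not_not] at h
    obtain ⟨⟨a0, a1⟩, a2⟩ := h
    exact kt0t2t3 ⟨a0, a1, a2⟩
  have ekt1t2t3 : (decide t1 || decide t2 || decide t3) = true := by
    by_contra h
    simp only [Bool.or_eq_true, not_or, Bool.not_eq_true', decide_eq_true_eq,
      decide_eq_false_iff_not, not_not] at h
    obtain ⟨⟨a0, a1⟩, a2⟩ := h
    exact kt1t2t3 ⟨a0, a1, a2⟩
  have ekt0c0 : (decide t0 || decide c0) = true := by
    by_contra h
    simp only [Bool.or_eq_true, not_or, Bool.not_eq_true', decide_eq_true_eq,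
      decide_eq_false_iff_not, not_not] at h
    obtain ⟨a0, a1⟩ := h
    exact kt0c0 ⟨a0, a1⟩
  have ekt0c2 : (decide t0 || decide c2) = true := by
    by_contra h
    simp only [Bool.or_eq_true, not_or, Bool.not_eq_true', decide_eq_true_eq,
      decide_eq_false_iff_not, not_not] at h
    obtain ⟨a0, a1⟩ := h
    exact kt0c2 ⟨a0, a1⟩
  have ekc0c2 : (decide c0 || decide c2) = true := by
    by_contra h
    simp only [Bool.or_eq_true, not_or, Bool.not_eq_true', decide_eq_true_eq,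
      decide_eq_false_iff_not, not_not] at h
    obtain ⟨a0, a1⟩ := h
    exact kc0c2 ⟨a0, a1⟩
  have ekt1c0 : (decide t1 || decide c0) = true := by
    by_contra h
    simp only [Bool.or_eq_true, not_or, Bool.not_eq_true', decide_eq_true_eq,
      decide_eq_false_iff_not, not_not] at h
    obtain ⟨a0, a1⟩ := h
    exact kt1c0 ⟨a0, a1⟩
  have ekt1c1 : (decide t1 || decide c1) = true := by
    by_contra h
    simp only [Bool.or_eq_true, not_or, Bool.not_eq_true', decide_eq_true_eq,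
      decide_eq_false_iff_not, not_not] at h
    obtain ⟨a0, a1⟩ := h
    exact kt1c1 ⟨a0, a1⟩
  have ekc0c1 : (decide c0 || decide c1) = true := by
    by_contra h
    simp only [Bool.or_eq_true, not_or, Bool.not_eq_true', decide_eq_true_eq,
      decide_eq_false_iff_not, not_not] at h
    obtain ⟨a0, a1⟩ := h
    exact kc0c1 ⟨a0, a1⟩
  have ekt2c1 : (decide t2 || decide c1) = true := by
    by_contra h
    simp only [Bool.or_eq_true, not_or, Bool.not_eq_true', decide_eq_true_eq,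
      decide_eq_false_iff_not, not_not] at h
    obtain ⟨a0, a1⟩ := h
    exact kt2c1 ⟨a0, a1⟩
  have ekt2c3 : (decide t2 || decide c3) = true := by
    by_contra h
    simp only [Bool.or_eq_true, not_or, Bool.not_eq_true', decide_eq_true_eq,
      decide_eq_false_iff_not, not_not] at h
    obtain ⟨a0, a1⟩ := h
    exact kt2c3 ⟨a0, a1⟩
  have ekc1c3 : (decide c1 || decide c3) = true := by
    by_contra h
    simp only [Bool.or_eq_true, not_or, Bool.not_eq_true', decide_eq_true_eq,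
      decide_eq_false_iff_not, not_not] at h
    obtain ⟨a0, a1⟩ := h
    exact kc1c3 ⟨a0, a1⟩
  have ekt3c2 : (decide t3 || decide c2) = true := by
    by_contra h
    simp only [Bool.or_eq_true, not_or, Bool.not_eq_true', decide_eq_true_eq,
      decide_eq_false_iff_not, not_not] at h
    obtain ⟨a0, a1⟩ := h
    exact kt3c2 ⟨a0, a1⟩
  have ekt3c3 : (decide t3 || decide c3) = true := by
    by_contra h
    simp only [Bool.or_eq_true, not_or, Bool.not_eq_true', decide_eq_true_eq,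
      decide_eq_false_iff_not, not_not] at h
    obtain ⟨a0, a1⟩ := h
    exact kt3c3 ⟨a0, a1⟩
  have ekc2c3 : (decide c2 || decide c3) = true := by
    by_contra h
    simp only [Bool.or_eq_true, not_or, Bool.not_eq_true', decide_eq_true_eq,
      decide_eq_false_iff_not, not_not] at h
    obtain ⟨a0, a1⟩ := h
    exact kc2c3 ⟨a0, a1⟩
  have en01t2 : (!(decide c3) || !(decide c2) || !(decide c1) || !(decide t2)) = true := by
    by_contra h
    simp only [Bool.or_eq_true, not_or, Bool.not_eq_true', decide_eq_true_eq,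
      decide_eq_false_iff_not, not_not] at h
    obtain ⟨⟨⟨a0, a1⟩, a2⟩, a3⟩ := h
    exact n01t2 ⟨a0, a1, a2, a3⟩
  have en01t3 : (!(decide c3) || !(decide c2) || !(decide c1) || !(decide t3)) = true := by
    by_contra h
    simp only [Bool.or_eq_true, not_or, Bool.not_eq_true', decide_eq_true_eq,
      decide_eq_false_iff_not, not_not] at h
    obtain ⟨⟨⟨a0, a1⟩, a2⟩, a3⟩ := h
    exact n01t3 ⟨a0, a1, a2, a3⟩
  have en03t0 : (!(decide c2) || !(decide c0) || !(decide c3) || !(decide t0)) = true := by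
    by_contra h
    simp only [Bool.or_eq_true, not_or, Bool.not_eq_true', decide_eq_true_eq,
      decide_eq_false_iff_not, not_not] at h
    obtain ⟨⟨⟨a0, a1⟩, a2⟩, a3⟩ := h
    exact n03t0 ⟨a0, a1, a2, a3⟩
  have en03t3 : (!(decide c2) || !(decide c0) || !(decide c3) || !(decide t3)) = true := by
    by_contra h
    simp only [Bool.or_eq_true, not_or, Bool.not_eq_true', decide_eq_true_eq,
      decide_eq_false_iff_not, not_not] at h
    obtain ⟨⟨⟨a0, a1⟩, a2⟩, a3⟩ := h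
    exact n03t3 ⟨a0, a1, a2, a3⟩
  have en12t1 : (!(decide c1) || !(decide c0) || !(decide c3) || !(decide t1)) = true := by
    by_contra h
    simp only [Bool.or_eq_true, not_or, Bool.not_eq_true', decide_eq_true_eq,
      decide_eq_false_iff_not, not_not] at h
    obtain ⟨⟨⟨a0, a1⟩, a2⟩, a3⟩ := h
    exact n12t1 ⟨a0, a1, a2, a3⟩
  have en12t2 : (!(decide c1) || !(decide c0) || !(decide c3) || !(decide t2)) = true := by
    by_contra h
    simp only [Bool.or_eq_true, not_or, Bool.not_eq_true', decide_eq_true_eq,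
      decide_eq_false_iff_not, not_not] at h
    obtain ⟨⟨⟨a0, a1⟩, a2⟩, a3⟩ := h
    exact n12t2 ⟨a0, a1, a2, a3⟩
  have en23t0 : (!(decide c0) || !(decide c1) || !(decide c2) || !(decide t0)) = true := by
    by_contra h
    simp only [Bool.or_eq_true, not_or, Bool.not_eq_true', decide_eq_true_eq,
      decide_eq_false_iff_not, not_not] at h
    obtain ⟨⟨⟨a0, a1⟩, a2⟩, a3⟩ := h
    exact n23t0 ⟨a0, a1, a2, a3⟩
  have en23t1 : (!(decide c0) || !(decide c1) || !(decide c2) || !(decide t1)) = true := by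
    by_contra h
    simp only [Bool.or_eq_true, not_or, Bool.not_eq_true', decide_eq_true_eq,
      decide_eq_false_iff_not, not_not] at h
    obtain ⟨⟨⟨a0, a1⟩, a2⟩, a3⟩ := h
    exact n23t1 ⟨a0, a1, a2, a3⟩
  have eT1 : (decide c0 || !(decide c1) || !(decide c2) || decide c3 || !(decide t0) || !(decide t1) || !(decide t2) || !(decide t3)) = true := by
    by_contra h
    simp only [Bool.or_eq_true, not_or, Bool.not_eq_true', decide_eq_true_eq,
      decide_eq_false_iff_not, not_not] at h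
    obtain ⟨⟨⟨⟨⟨⟨⟨a0, a1⟩, a2⟩, a3⟩, a4⟩, a5⟩, a6⟩, a7⟩ := h
    exact T1 ⟨a0, a1, a2, a3, a4, a5, a6, a7⟩
  have eT2 : (!(decide c0) || decide c1 || decide c2 || !(decide c3) || !(decide t0) || !(decide t1) || !(decide t2) || !(decide t3)) = true := by
    by_contra h
    simp only [Bool.or_eq_true, not_or, Bool.not_eq_true', decide_eq_true_eq,
      decide_eq_false_iff_not, not_not] at h
    obtain ⟨⟨⟨⟨⟨⟨⟨a0, a1⟩, a2⟩, a3⟩, a4⟩, a5⟩, a6⟩, a7⟩ := h
    exact T2 ⟨a0, a1, a2, a3, a4, a5, a6, a7⟩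
  have eM0 : (decide c0 || !(decide c1) || !(decide c2) || !(decide c3) || !(decide t0) || !(decide t1) || decide t2 || decide t3) = true := by
    by_contra h
    simp only [Bool.or_eq_true, not_or, Bool.not_eq_true', decide_eq_true_eq,
      decide_eq_false_iff_not, not_not] at h
    obtain ⟨⟨⟨⟨⟨⟨⟨a0, a1⟩, a2⟩, a3⟩, a4⟩, a5⟩, a6⟩, a7⟩ := h
    exact M0 ⟨a0, a1, a2, a3, a4, a5, a6, a7⟩
  have eM1 : (!(decide c0) || decide c1 || !(decide c2) || !(decide c3) || decide t0 || !(decide t1) || !(decide t2) || decide t3) = true := by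
    by_contra h
    simp only [Bool.or_eq_true, not_or, Bool.not_eq_true', decide_eq_true_eq,
      decide_eq_false_iff_not, not_not] at h
    obtain ⟨⟨⟨⟨⟨⟨⟨a0, a1⟩, a2⟩, a3⟩, a4⟩, a5⟩, a6⟩, a7⟩ := h
    exact M1 ⟨a0, a1, a2, a3, a4, a5, a6, a7⟩
  have eM2 : (!(decide c0) || !(decide c1) || decide c2 || !(decide c3) || !(decide t0) || decide t1 || decide t2 || !(decide t3)) = true := by
    by_contra h
    simp only [Bool.or_eq_true, not_or, Bool.not_eq_true', decide_eq_true_eq,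
      decide_eq_false_iff_not, not_not] at h
    obtain ⟨⟨⟨⟨⟨⟨⟨a0, a1⟩, a2⟩, a3⟩, a4⟩, a5⟩, a6⟩, a7⟩ := h
    exact M2 ⟨a0, a1, a2, a3, a4, a5, a6, a7⟩
  have eM3 : (!(decide c0) || !(decide c1) || !(decide c2) || decide c3 || decide t0 || decide t1 || !(decide t2) || !(decide t3)) = true := by
    by_contra h
    simp only [Bool.or_eq_true, not_or, Bool.not_eq_true', decide_eq_true_eq,
      decide_eq_false_iff_not, not_not] at h
    obtain ⟨⟨⟨⟨⟨⟨⟨a0, a1⟩, a2⟩, a3⟩, a4⟩, a5⟩, a6⟩, a7⟩ := h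
    exact M3 ⟨a0, a1, a2, a3, a4, a5, a6, a7⟩
  simp only [ekt0t1t2, ekt0t1t3, ekt0t2t3, ekt1t2t3, ekt0c0, ekt0c2, ekc0c2, ekt1c0, ekt1c1, ekc0c1, ekt2c1, ekt2c3, ekc1c3, ekt3c2, ekt3c3, ekc2c3, en01t2, en01t3, en03t0, en03t3, en12t1, en12t2, en23t0, en23t1, eT1, eT2, eM0, eM1, eM2, eM3, Bool.and_true, Bool.and_self]

end Pool.Agent.Lib.MP_73b196_co
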