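import Pool.Agent.Lib.MP_73b196_co.Five

/-!
# The necessary condition
-/

set_option autoImplicit false

namespace Pool.Agent.Lib.MP_73b196_co

variable {V : Type} [Fintype V] [DecidableEq V]

/-- Every nonface inside a set of pairwise adjacent vertices contains a nonface triple. -/
theorem trip_all {Δ : Set (Finset V)} (hΔ : IsComplex Δ) (hMD : MarkovDegreeLE Δ 4) (C : Finset V)
    (hC : ∀ a ∈ C, ∀ b ∈ C, ({a, b} : Finset V) ∈ Δ) :
    ∀ (n : ℕ) (F : Finset V), F.card = n → F ⊆ C → F ∉ Δ → ∃ T, T ⊆ F ∧ T.card = 3 ∧ T ∉ Δ := by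
  intro n
  induction n with
  | zero =>
    intro F hF _ hF'
    rw [Finset.card_eq_zero] at hF
    rw [hF] at hF'
    exact absurd hΔ.empty hF'
  | succ n ih =>
    intro F hF hFC hF'
    by_cases h : ∃ v ∈ F, F.erase v ∉ Δ
    · obtain ⟨v, hv, hv'⟩ := h
      obtain ⟨T, h1, h2⟩ := ih (F.erase v) (by rw [Finset.card_erase_of_mem hv, hF]; rfl)
        ((Finset.erase_subset _ _).trans hFC) hv'
      exact ⟨T, h1.trans (Finset.erase_subset _ _), h2⟩
    · push Not at h
      by_cases h4 : 4 ≤ F.card
      · exact absurd hMD (bad_min hΔ F hF' h h4)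
      · have h5 : F.card = 1 ∨ F.card = 2 ∨ F.card = 3 := by omega
        rcases h5 with h5 | h5 | h5
        · obtain ⟨a, rfl⟩ := Finset.card_eq_one.1 h5
          exact absurd (hΔ.vertex a) hF'
        · obtain ⟨a, b, -, rfl⟩ := Finset.card_eq_two.1 h5
          exact absurd (hC a (hFC (by simp)) b (hFC (by simp))) hF'
        · exact ⟨F, subset_rfl, h5, hF'⟩

theorem trip_of {Δ : Set (Finset V)} (hΔ : IsComplex Δ) (hMD : MarkovDegreeLE Δ 4) (C : Finset V)
    (hC : ∀ a ∈ C, ∀ b ∈ C, ({a, b} : Finset V) ∈ Δ) {k : ℕ} (p : Fin k → V)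
    (hp : Function.Injective p) (hpC : ∀ i, p i ∈ C) : Trip Δ p := by
  intro G hG
  obtain ⟨T, hT, hT3, hT'⟩ := trip_all hΔ hMD C hC _ (G.image p) rfl (by
    intro v hv
    obtain ⟨i, -, rfl⟩ := Finset.mem_image.1 hv
    exact hpC i) hG
  have h1 : (G.filter fun i => p i ∈ T).image p = T := by
    ext v
    rw [Finset.mem_image]
    constructor
    · rintro ⟨i, hi, rfl⟩
      exact (Finset.mem_filter.1 hi).2
    · intro hv
      obtain ⟨i, hi, rfl⟩ := Finset.mem_image.1 (hT hv)
      exact ⟨i, Finset.mem_filter.2 ⟨hi, hv⟩, rfl⟩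
  refine ⟨G.filter fun i => p i ∈ T, Finset.filter_subset _ _, ?_, ?_⟩
  · rw [← Finset.card_image_of_injective _ hp, h1, hT3]
  · rwa [h1]

section

variable {Δ : Set (Finset V)} (hΔ : IsComplex Δ) (hMD : MarkovDegreeLE Δ 4) (C : Finset V)
  (hC : ∀ a ∈ C, ∀ b ∈ C, ({a, b} : Finset V) ∈ Δ)

include hΔ hMD hC

/-- Two nonface triples do not have exactly one common vertex. -/
theorem inter_ne_one {S T : Finset V} (hS : S ⊆ C) (hT : T ⊆ C) (hS3 : S.card = 3)
    (hT3 : T.card = 3) (hS' : S ∉ Δ) (hT' : T ∉ Δ) : (S ∩ T).card ≠ 1 := by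
  intro h1
  obtain ⟨e, he⟩ := Finset.card_eq_one.1 h1
  have heS : e ∈ S := (Finset.mem_inter.1 (he ▸ Finset.mem_singleton_self e)).1
  have heT : e ∈ T := (Finset.mem_inter.1 (he ▸ Finset.mem_singleton_self e)).2
  have hS2 : (S.erase e).card = 2 := by rw [Finset.card_erase_of_mem heS, hS3]
  have hT2 : (T.erase e).card = 2 := by rw [Finset.card_erase_of_mem heT, hT3]
  obtain ⟨a, b, hab, hSab⟩ := Finset.card_eq_two.1 hS2
  obtain ⟨c, d, hcd, hTcd⟩ := Finset.card_eq_two.1 hT2
  have mS : ∀ v, v ∈ S.erase e ↔ v = a ∨ v = b := by intro v; rw [hSab]; simp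
  have mT : ∀ v, v ∈ T.erase e ↔ v = c ∨ v = d := by intro v; rw [hTcd]; simp
  have ha := Finset.mem_erase.1 ((mS a).2 (Or.inl rfl))
  have hb := Finset.mem_erase.1 ((mS b).2 (Or.inr rfl))
  have hc := Finset.mem_erase.1 ((mT c).2 (Or.inl rfl))
  have hd := Finset.mem_erase.1 ((mT d).2 (Or.inr rfl))
  have hST : ∀ v, v ∈ S → v ∈ T → v = e := by
    intro v h1 h2
    have : v ∈ S ∩ T := Finset.mem_inter.2 ⟨h1, h2⟩
    rw [he] at this
    exact Finset.mem_singleton.1 this
  have hac : a ≠ c := by rintro rfl; exact ha.1 (hST _ ha.2 hc.2)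
  have had : a ≠ d := by rintro rfl; exact ha.1 (hST _ ha.2 hd.2)
  have hbc : b ≠ c := by rintro rfl; exact hb.1 (hST _ hb.2 hc.2)
  have hbd : b ≠ d := by rintro rfl; exact hb.1 (hST _ hb.2 hd.2)
  have hp : Function.Injective ![a, c, b, d, e] := by
    intro i j hij
    fin_cases i <;> fin_cases j <;> simp at hij ⊢ <;>
      first
      | exact absurd hij hac | exact absurd hij.symm hac | exact absurd hij had
      | exact absurd hij.symm had | exact absurd hij hbc | exact absurd hij.symm hbc
      | exact absurd hij hbd | exact absurd hij.symm hbd | exact absurd hij hab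
      | exact absurd hij.symm hab | exact absurd hij hcd | exact absurd hij.symm hcd
      | exact absurd hij ha.1 | exact absurd hij.symm ha.1 | exact absurd hij hb.1
      | exact absurd hij.symm hb.1 | exact absurd hij hc.1 | exact absurd hij.symm hc.1
      | exact absurd hij hd.1 | exact absurd hij.symm hd.1
  have hpC : ∀ i, ![a, c, b, d, e] i ∈ C := by
    intro i
    fin_cases i
    exacts [hS ha.2, hT hc.2, hS hb.2, hT hd.2, hS heS]
  refine five hMD hΔ hp (fun i j => hC _ (hpC i) _ (hpC j)) (trip_of hΔ hMD C hC _ hp hpC) ?_ ?_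
  · have : ({0, 2, 4} : Finset (Fin 5)).image ![a, c, b, d, e] = S := by
      rw [← Finset.insert_erase heS, hSab]
      ext v
      simp
      tauto
    rwa [this]
  · have : ({1, 3, 4} : Finset (Fin 5)).image ![a, c, b, d, e] = T := by
      rw [← Finset.insert_erase heT, hTcd]
      ext v
      simp
      tauto
    rwa [this]

/-- Two nonface triples are not disjoint. -/
theorem inter_ne_zero {S T : Finset V} (hS : S ⊆ C) (hT : T ⊆ C) (hS3 : S.card = 3)
    (hT3 : T.card = 3) (hS' : S ∉ Δ) (hT' : T ∉ Δ) : (S ∩ T).card ≠ 0 := by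
  intro h0
  rw [Finset.card_eq_zero, ← Finset.disjoint_iff_inter_eq_empty] at h0
  -- the only nonface triples in the union
  have honly : ∀ U : Finset V, U ⊆ S ∪ T → U.card = 3 → U ∉ Δ → U = S ∨ U = T := by
    intro U hU hU3 hU'
    have hUC : U ⊆ C := hU.trans (Finset.union_subset hS hT)
    have h1 := inter_ne_one hΔ hMD C hC hUC hS hU3 hS3 hU' hS'
    have h2 := inter_ne_one hΔ hMD C hC hUC hT hU3 hT3 hU' hT'
    have h3 : (U ∩ S).card + (U ∩ T).card = 3 := by
      rw [← Finset.card_union_of_disjoint, ← Finset.inter_union_distrib_left,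
        Finset.inter_eq_left.2 hU, hU3]
      exact Finset.disjoint_of_subset_left Finset.inter_subset_right
        (Finset.disjoint_of_subset_right Finset.inter_subset_right h0)
    have h4 : (U ∩ S).card = 3 ∨ (U ∩ T).card = 3 := by omega
    rcases h4 with h4 | h4
    · left
      have h5 : U ∩ S = U := Finset.eq_of_subset_of_card_le Finset.inter_subset_left (by omega)
      exact Finset.eq_of_subset_of_card_le (Finset.inter_eq_left.1 h5) (by omega)
    · right
      have h5 : U ∩ T = U := Finset.eq_of_subset_of_card_le Finset.inter_subset_left (by omega)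
      exact Finset.eq_of_subset_of_card_le (Finset.inter_eq_left.1 h5) (by omega)
  obtain ⟨a, b, c, hab, hac, hbc, hSe⟩ := Finset.card_eq_three.1 hS3
  obtain ⟨d, e, f, hde, hdf, hef, hTe⟩ := Finset.card_eq_three.1 hT3
  have hST : ∀ v, v ∈ S → ∀ w, w ∈ T → v ≠ w := by
    rintro v hv w hw rfl
    exact Finset.disjoint_left.1 h0 hv hw
  have aS : a ∈ S := by rw [hSe]; simp
  have bS : b ∈ S := by rw [hSe]; simp
  have cS : c ∈ S := by rw [hSe]; simp
  have dT : d ∈ T := by rw [hTe]; simp
  have eT : e ∈ T := by rw [hTe]; simp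
  have fT : f ∈ T := by rw [hTe]; simp
  have hp : Function.Injective ![a, b, c, d, e, f] := by
    intro i j hij
    fin_cases i <;> fin_cases j <;> simp at hij ⊢ <;>
      first
      | exact absurd hij hab | exact absurd hij.symm hab | exact absurd hij hac
      | exact absurd hij.symm hac | exact absurd hij hbc | exact absurd hij.symm hbc
      | exact absurd hij hde | exact absurd hij.symm hde | exact absurd hij hdf
      | exact absurd hij.symm hdf | exact absurd hij hef | exact absurd hij.symm hef
      | exact absurd hij (hST a aS d dT) | exact absurd hij.symm (hST a aS d dT)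
      | exact absurd hij (hST a aS e eT) | exact absurd hij.symm (hST a aS e eT)
      | exact absurd hij (hST a aS f fT) | exact absurd hij.symm (hST a aS f fT)
      | exact absurd hij (hST b bS d dT) | exact absurd hij.symm (hST b bS d dT)
      | exact absurd hij (hST b bS e eT) | exact absurd hij.symm (hST b bS e eT)
      | exact absurd hij (hST b bS f fT) | exact absurd hij.symm (hST b bS f fT)
      | exact absurd hij (hST c cS d dT) | exact absurd hij.symm (hST c cS d dT)
      | exact absurd hij (hST c cS e eT) | exact absurd hij.symm (hST c cS e eT)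
      | exact absurd hij (hST c cS f fT) | exact absurd hij.symm (hST c cS f fT)
  have hpC : ∀ i, ![a, b, c, d, e, f] i ∈ C := by
    intro i
    fin_cases i
    exacts [hS aS, hS bS, hS cS, hT dT, hT eT, hT fT]
  have hSp : ({0, 1, 2} : Finset (Fin 6)).image ![a, b, c, d, e, f] = S := by
    rw [hSe]; simp [Finset.image_insert]
  have hTp : ({3, 4, 5} : Finset (Fin 6)).image ![a, b, c, d, e, f] = T := by
    rw [hTe]; simp [Finset.image_insert]
  have face : ∀ G : Finset (Fin 6), ¬ {0, 1, 2} ⊆ G → ¬ {3, 4, 5} ⊆ G →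
      G.image ![a, b, c, d, e, f] ∈ Δ := by
    intro G h1 h2
    by_contra h3
    obtain ⟨U, hU, hU3, hU'⟩ := trip_all hΔ hMD C hC _ _ rfl (by
      intro v hv
      obtain ⟨i, -, rfl⟩ := Finset.mem_image.1 hv
      exact hpC i) h3
    have hsub : ∀ G' : Finset (Fin 6), G'.image ![a, b, c, d, e, f] ⊆
        G.image ![a, b, c, d, e, f] → G' ⊆ G := by
      intro G' h
      rwa [Finset.image_subset_image_iff hp] at h
    rcases honly U (hU.trans (by
      intro v hv
      obtain ⟨i, -, rfl⟩ := Finset.mem_image.1 hv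
      fin_cases i <;> simp [aS, bS, cS, dT, eT, fT])) hU3 hU' with h4 | h4
    · exact h1 (hsub _ (by rw [hSp, ← h4]; exact hU))
    · exact h2 (hsub _ (by rw [hTp, ← h4]; exact hU))
  refine bad_con (l := 5) (by norm_num) hΔ ![a, b, c, d, e, f] hp ![0, 1, 2, 0, 3, 4] (by decide)
    (fun i j _ => hC _ (hpC i) _ (hpC j)) ?_ ?_ hMD
  · intro G hG hG'
    have key : ∀ G : Finset (Fin 6), G.image ![(0 : Fin 5), 1, 2, 0, 3, 4] = Finset.univ →
        {0, 1, 2} ⊆ G ∨ {3, 4, 5} ⊆ G := by decide +kernel
    rcases key G hG with h | h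
    · apply hS'
      rw [← hSp]
      exact hΔ.down _ hG' _ (Finset.image_subset_image h)
    · apply hT'
      rw [← hTp]
      exact hΔ.down _ hG' _ (Finset.image_subset_image h)
  · intro w
    have key : ∀ w : Fin 5, ∃ G : Finset (Fin 6), ¬ {0, 1, 2} ⊆ G ∧ ¬ {3, 4, 5} ⊆ G ∧
        Finset.univ.erase w ⊆ G.image ![(0 : Fin 5), 1, 2, 0, 3, 4] := by decide +kernel
    obtain ⟨G, h1, h2, h3⟩ := key w
    exact ⟨G, face G h1 h2, h3⟩

/-- Two different nonface triples have exactly two common vertices. -/
theorem inter_eq_two {S T : Finset V} (hS : S ⊆ C) (hT : T ⊆ C) (hS3 : S.card = 3)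
    (hT3 : T.card = 3) (hS' : S ∉ Δ) (hT' : T ∉ Δ) (hne : S ≠ T) : (S ∩ T).card = 2 := by
  have h1 := inter_ne_one hΔ hMD C hC hS hT hS3 hT3 hS' hT'
  have h0 := inter_ne_zero hΔ hMD C hC hS hT hS3 hT3 hS' hT'
  have h3 : (S ∩ T).card ≠ 3 := by
    intro h3
    apply hne
    have h4 : S ∩ T = S := Finset.eq_of_subset_of_card_le Finset.inter_subset_left (by omega)
    exact Finset.eq_of_subset_of_card_le (Finset.inter_eq_left.1 h4) (by omega)
  have h4 : (S ∩ T).card ≤ 3 := hS3 ▸ Finset.card_le_card Finset.inter_subset_left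
  omega

/-- Three nonface triples `xyb`, `xyc`, `ybc` are impossible. -/
theorem no_three {x y b c : V} (hx : x ∈ C) (hy : y ∈ C) (hb : b ∈ C) (hc : c ∈ C)
    (hxy : x ≠ y) (hxb : x ≠ b) (hxc : x ≠ c) (hyb : y ≠ b) (hyc : y ≠ c) (hbc : b ≠ c)
    (h1 : ({x, b, y} : Finset V) ∉ Δ) (h2 : ({x, c, y} : Finset V) ∉ Δ)
    (h3 : ({b, c, y} : Finset V) ∉ Δ) : False := by
  have hp : Function.Injective ![x, b, c, y] := by
    intro i j hij
    fin_cases i <;> fin_cases j <;> simp at hij ⊢ <;>
      first
      | exact absurd hij hxy | exact absurd hij.symm hxy | exact absurd hij hxb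
      | exact absurd hij.symm hxb | exact absurd hij hxc | exact absurd hij.symm hxc
      | exact absurd hij hyb | exact absurd hij.symm hyb | exact absurd hij hyc
      | exact absurd hij.symm hyc | exact absurd hij hbc | exact absurd hij.symm hbc
  have hpC : ∀ i, ![x, b, c, y] i ∈ C := by
    intro i
    fin_cases i
    exacts [hx, hb, hc, hy]
  refine bad_K hΔ _ hp (fun i j => hC _ (hpC i) _ (hpC j)) ?_ ?_ ?_ hMD
  · simpa [Finset.image_insert] using h1
  · simpa [Finset.image_insert] using h2
  · simpa [Finset.image_insert] using h3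

/-- The necessary condition. -/
theorem nec : C ∈ Δ ∨ ∃ x ∈ C, ∃ y ∈ C, x ≠ y ∧ ∀ F ⊆ C, F ∉ Δ → x ∈ F ∧ y ∈ F ∧
    ∃ b ∈ F, ({x, y, b} : Finset V) ∉ Δ := by
  by_cases hCf : C ∈ Δ
  · exact Or.inl hCf
  right
  obtain ⟨S, hS, hS3, hS'⟩ := trip_all hΔ hMD C hC _ C rfl subset_rfl hCf
  by_cases hall : ∀ T ⊆ C, T.card = 3 → T ∉ Δ → T = S
  · obtain ⟨x, y, b, hxy, -, -, hSe⟩ := Finset.card_eq_three.1 hS3
    have xS : x ∈ S := by rw [hSe]; simp
    have yS : y ∈ S := by rw [hSe]; simp
    have bS : b ∈ S := by rw [hSe]; simp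
    refine ⟨x, hS xS, y, hS yS, hxy, fun F hF hF' => ?_⟩
    obtain ⟨T, hT, hT3, hT'⟩ := trip_all hΔ hMD C hC _ F rfl hF hF'
    have := hall T (hT.trans hF) hT3 hT'
    rw [this] at hT
    exact ⟨hT xS, hT yS, b, hT bS, by rw [← hSe]; exact hS'⟩
  · push Not at hall
    obtain ⟨T, hT, hT3, hT', hTS⟩ := hall
    have h2 := inter_eq_two hΔ hMD C hC hS hT hS3 hT3 hS' hT' hTS.symm
    obtain ⟨x, y, hxy, hI⟩ := Finset.card_eq_two.1 h2
    have hxI : x ∈ S ∩ T := by rw [hI]; simp
    have hyI : y ∈ S ∩ T := by rw [hI]; simp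
    have xS := (Finset.mem_inter.1 hxI).1
    have xT := (Finset.mem_inter.1 hxI).2
    have yS := (Finset.mem_inter.1 hyI).1
    have yT := (Finset.mem_inter.1 hyI).2
    -- the third vertex of a triple containing `x` and `y`
    have third : ∀ U : Finset V, U.card = 3 → x ∈ U → y ∈ U → ∃ b ∈ U, b ≠ x ∧ b ≠ y ∧
        U = {x, y, b} := by
      intro U hU hxU hyU
      have h3 : ((U.erase x).erase y).card = 1 := by
        rw [Finset.card_erase_of_mem (Finset.mem_erase.2 ⟨hxy.symm, hyU⟩),
          Finset.card_erase_of_mem hxU, hU]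
      obtain ⟨b, hb⟩ := Finset.card_eq_one.1 h3
      have hbm : b ∈ (U.erase x).erase y := by rw [hb]; simp
      rw [Finset.mem_erase, Finset.mem_erase] at hbm
      refine ⟨b, hbm.2.2, hbm.2.1, hbm.1, ?_⟩
      ext v
      simp only [Finset.mem_insert, Finset.mem_singleton]
      constructor
      · intro hv
        by_cases hvx : v = x
        · exact Or.inl hvx
        · by_cases hvy : v = y
          · exact Or.inr (Or.inl hvy)
          · right; right
            have : v ∈ (U.erase x).erase y := by
              rw [Finset.mem_erase, Finset.mem_erase]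
              exact ⟨hvy, hvx, hv⟩
            rw [hb] at this
            exact Finset.mem_singleton.1 this
      · rintro (rfl | rfl | rfl)
        exacts [hxU, hyU, hbm.2.2]
    obtain ⟨b, bS, hbx, hby, hSe⟩ := third S hS3 xS yS
    obtain ⟨c, cT, hcx, hcy, hTe⟩ := third T hT3 xT yT
    have hbc : b ≠ c := by
      rintro rfl
      exact hTS (hTe.trans hSe.symm)
    -- all triples contain `x` and `y`
    have hboth : ∀ U ⊆ C, U.card = 3 → U ∉ Δ → x ∈ U ∧ y ∈ U := by
      intro U hU hU3 hU'
      by_cases hUS : U = S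
      · rw [hUS]
        exact ⟨xS, yS⟩
      by_cases hUT : U = T
      · rw [hUT]
        exact ⟨xT, yT⟩
      have k1 := inter_eq_two hΔ hMD C hC hU hS hU3 hS3 hU' hS' hUS
      have k2 := inter_eq_two hΔ hMD C hC hU hT hU3 hT3 hU' hT' hUT
      -- if `z ∉ U` for one of `x, y`, then `U = {w, b, c}` with `w` the other one
      have key : ∀ z w : V, z ≠ w → ({z, w} : Finset V) = {x, y} → z ∉ U → False := by
        intro z w hzw hpair hz
        have hzS : z ∈ S := by
          have : z ∈ ({x, y} : Finset V) := by rw [← hpair]; simp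
          rw [← hI] at this
          exact (Finset.mem_inter.1 this).1
        have hzT : z ∈ T := by
          have : z ∈ ({x, y} : Finset V) := by rw [← hpair]; simp
          rw [← hI] at this
          exact (Finset.mem_inter.1 this).2
        have hwS : w ∈ S := by
          have : w ∈ ({x, y} : Finset V) := by rw [← hpair]; simp
          rw [← hI] at this
          exact (Finset.mem_inter.1 this).1
        have hwT : w ∈ T := by
          have : w ∈ ({x, y} : Finset V) := by rw [← hpair]; simp
          rw [← hI] at this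
          exact (Finset.mem_inter.1 this).2
        have e1 : U ∩ S = S.erase z := by
          apply Finset.eq_of_subset_of_card_le
          · intro v hv
            rw [Finset.mem_inter] at hv
            exact Finset.mem_erase.2 ⟨by rintro rfl; exact hz hv.1, hv.2⟩
          · rw [Finset.card_erase_of_mem hzS, k1, hS3]
        have e2 : U ∩ T = T.erase z := by
          apply Finset.eq_of_subset_of_card_le
          · intro v hv
            rw [Finset.mem_inter] at hv
            exact Finset.mem_erase.2 ⟨by rintro rfl; exact hz hv.1, hv.2⟩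
          · rw [Finset.card_erase_of_mem hzT, k2, hT3]
        have hzb : z ≠ b := by
          rintro rfl
          have : z ∈ ({x, y} : Finset V) := by rw [← hpair]; simp
          simp only [Finset.mem_insert, Finset.mem_singleton] at this
          rcases this with h | h
          exacts [hbx h, hby h]
        have hzc : z ≠ c := by
          rintro rfl
          have : z ∈ ({x, y} : Finset V) := by rw [← hpair]; simp
          simp only [Finset.mem_insert, Finset.mem_singleton] at this
          rcases this with h | h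
          exacts [hcx h, hcy h]
        have hwb : w ≠ b := by
          rintro rfl
          have : w ∈ ({x, y} : Finset V) := by rw [← hpair]; simp
          simp only [Finset.mem_insert, Finset.mem_singleton] at this
          rcases this with h | h
          exacts [hbx h, hby h]
        have hwc : w ≠ c := by
          rintro rfl
          have : w ∈ ({x, y} : Finset V) := by rw [← hpair]; simp
          simp only [Finset.mem_insert, Finset.mem_singleton] at this
          rcases this with h | h
          exacts [hcx h, hcy h]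
        have bU : b ∈ U := by
          have : b ∈ U ∩ S := by rw [e1]; exact Finset.mem_erase.2 ⟨hzb.symm, bS⟩
          exact (Finset.mem_inter.1 this).1
        have cU : c ∈ U := by
          have : c ∈ U ∩ T := by rw [e2]; exact Finset.mem_erase.2 ⟨hzc.symm, cT⟩
          exact (Finset.mem_inter.1 this).1
        have wU : w ∈ U := by
          have : w ∈ U ∩ S := by rw [e1]; exact Finset.mem_erase.2 ⟨hzw.symm, hwS⟩
          exact (Finset.mem_inter.1 this).1
        have hUe : ({b, c, w} : Finset V) = U := by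
          apply Finset.eq_of_subset_of_card_le
          · intro v hv
            simp only [Finset.mem_insert, Finset.mem_singleton] at hv
            rcases hv with rfl | rfl | rfl
            exacts [bU, cU, wU]
          · rw [hU3, Finset.card_eq_three.2 ⟨b, c, w, hbc, hwb.symm, hwc.symm, rfl⟩]
        have hSe' : ({z, b, w} : Finset V) = S := by
          apply Finset.eq_of_subset_of_card_le
          · intro v hv
            simp only [Finset.mem_insert, Finset.mem_singleton] at hv
            rcases hv with rfl | rfl | rfl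
            exacts [hzS, bS, hwS]
          · rw [hS3, Finset.card_eq_three.2 ⟨z, b, w, hzb, hzw, hwb.symm, rfl⟩]
        have hTe' : ({z, c, w} : Finset V) = T := by
          apply Finset.eq_of_subset_of_card_le
          · intro v hv
            simp only [Finset.mem_insert, Finset.mem_singleton] at hv
            rcases hv with rfl | rfl | rfl
            exacts [hzT, cT, hwT]
          · rw [hT3, Finset.card_eq_three.2 ⟨z, c, w, hzc, hzw, hwc.symm, rfl⟩]
        exact no_three hΔ hMD C hC (hS hzS) (hS hwS) (hS bS) (hT cT) hzw hzb hzc hwb hwc hbc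
          (by rw [hSe']; exact hS') (by rw [hTe']; exact hT') (by rw [hUe]; exact hU')
      constructor
      · by_contra hx
        exact key x y hxy rfl hx
      · by_contra hy
        exact key y x hxy.symm (Finset.pair_comm y x) hy
    refine ⟨x, hS xS, y, hS yS, hxy, fun F hF hF' => ?_⟩
    obtain ⟨U, hU, hU3, hU'⟩ := trip_all hΔ hMD C hC _ F rfl hF hF'
    obtain ⟨hxU, hyU⟩ := hboth U (hU.trans hF) hU3 hU'
    obtain ⟨d, hd, -, -, hUe⟩ := third U hU3 hxU hyU
    exact ⟨hU hxU, hU hyU, d, hU hd, by rw [← hUe]; exact hU'⟩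

end

end Pool.Agent.Lib.MP_73b196_co
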