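import Pool.Agent.Lib.MP_73b196_co.Embed

/-!
# Enumeration of a fibre by a verified search
-/

set_option autoImplicit false

namespace Pool.Agent.Lib.MP_73b196_co

/-- The marginal of `z` over the class `r` of the mask `f`, restricted to the cells in the list. -/
def cls (f r : ℕ) (cs : List ℕ) (z : ℕ → ℕ) : ℕ := ((cs.filter fun c => c &&& f == r).map z).sum

theorem cls_nil (f r : ℕ) (z : ℕ → ℕ) : cls f r [] z = 0 := rfl

theorem cls_cons (f r c : ℕ) (cs : List ℕ) (z : ℕ → ℕ) :
    cls f r (c :: cs) z = (if c &&& f == r then z c else 0) + cls f r cs z := by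
  unfold cls
  rw [List.filter_cons]
  split_ifs <;> simp

/-- Backtracking search: all solutions pass the test `ok`. -/
def srch (fs : List ℕ) (ok : List ℕ → Bool) : List ℕ → (ℕ → ℕ → ℕ) → List ℕ → Bool
  | [], _, acc => ok acc
  | c :: cs, rem, acc =>
    (List.range (rem (fs.headD 0) (c &&& fs.headD 0) + 1)).all fun v =>
      !(fs.all fun f => decide (v ≤ rem f (c &&& f)) &&
          ((cs.any fun c' => c' &&& f == c &&& f) || rem f (c &&& f) == v)) ||
      srch fs ok cs (fun f r => if r == c &&& f then rem f r - v else rem f r) (v :: acc)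

theorem srch_sound (fs : List ℕ) (hfs : fs ≠ []) (ok : List ℕ → Bool) (z : ℕ → ℕ) (cs : List ℕ) :
    ∀ (rem : ℕ → ℕ → ℕ) (acc : List ℕ), srch fs ok cs rem acc = true →
      (∀ f ∈ fs, ∀ r, cls f r cs z = rem f r) → ok ((cs.map z).reverse ++ acc) = true := by
  induction cs with
  | nil => intro rem acc h _; exact h
  | cons c cs ih =>
    intro rem acc h hrem
    unfold srch at h
    rw [List.all_eq_true] at h
    have hle : ∀ f ∈ fs, z c ≤ rem f (c &&& f) := by
      intro f hf
      rw [← hrem f hf, cls_cons]
      simp
    have hhead : fs.headD 0 ∈ fs := by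
      cases fs with
      | nil => exact absurd rfl hfs
      | cons a l => simp
    have h1 := h (z c) (List.mem_range.2 (Nat.lt_succ_of_le (hle _ hhead)))
    rw [Bool.or_eq_true, Bool.not_eq_true'] at h1
    rcases h1 with h1 | h1
    · exfalso
      rw [← Bool.not_eq_true, List.all_eq_true] at h1
      apply h1
      intro f hf
      rw [Bool.and_eq_true, decide_eq_true_eq, Bool.or_eq_true]
      refine ⟨hle f hf, ?_⟩
      by_cases h2 : (cs.any fun c' => c' &&& f == c &&& f) = true
      · exact Or.inl h2
      · right
        rw [← hrem f hf, cls_cons]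
        have h3 : cls f (c &&& f) cs z = 0 := by
          unfold cls
          have : (cs.filter fun c' => c' &&& f == c &&& f) = [] := by
            rw [List.filter_eq_nil_iff]
            intro c' hc' h4
            exact h2 (List.any_eq_true.2 ⟨c', hc', h4⟩)
          rw [this]
          rfl
        rw [h3]
        simp
    · have h2 := ih _ _ h1 (by
        intro f hf r
        have h3 := hrem f hf r
        rw [cls_cons] at h3
        by_cases hr : r = c &&& f
        · subst hr
          simp only [beq_self_eq_true, if_true] at h3 ⊢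
          omega
        · have hr1 : (r == c &&& f) = false := by simpa using hr
          have hr2 : (c &&& f == r) = false := by simpa using fun h => hr h.symm
          rw [hr2] at h3
          simp only [hr1, Bool.false_eq_true, if_false] at h3 ⊢
          omega)
      rw [List.map_cons, List.reverse_cons, List.append_assoc]
      exact h2

/-- The cell with a given code. -/
def dec (m c : ℕ) : Fin m → Bool := fun i => c.testBit i

/-- The code of a cell. -/
def cod {m : ℕ} (j : Fin m → Bool) : ℕ := ∑ i, if j i then 2 ^ (i : ℕ) else 0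

/-- Codes and cells correspond (test). -/
def codeOk (m : ℕ) : Prop :=
  (∀ j : Fin m → Bool, dec m (cod j) = j ∧ cod j < 2 ^ m) ∧ ∀ c < 2 ^ m, cod (dec m c) = c

theorem codeOk_four : codeOk 4 := by
  unfold codeOk
  decide +kernel

theorem codeOk_five : codeOk 5 := by
  unfold codeOk
  decide +kernel

theorem sum_list_range (n : ℕ) (g : ℕ → ℕ) : ((List.range n).map g).sum =
    ∑ c ∈ Finset.range n, g c := by
  induction n with
  | zero => rfl
  | succ n ih => rw [List.range_succ, List.map_append, List.sum_append, ih,
      Finset.sum_range_succ]; simp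

theorem sum_cells {m : ℕ} (hm : codeOk m) (g : (Fin m → Bool) → ℕ) :
    ∑ j, g j = ((List.range (2 ^ m)).map fun c => g (dec m c)).sum := by
  rw [sum_list_range]
  refine Finset.sum_nbij' cod (dec m) ?_ ?_ ?_ ?_ ?_
  · intro j _
    exact Finset.mem_range.2 (hm.1 j).2
  · intro c _
    exact Finset.mem_univ _
  · intro j _
    exact (hm.1 j).1
  · intro c hc
    exact hm.2 c (Finset.mem_range.1 hc)
  · intro j _
    rw [(hm.1 j).1]

/-- The mask of a set. -/
def msk {m : ℕ} (G : Finset (Fin m)) : ℕ := cod fun i => decide (i ∈ G)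

/-- The mask is correct. -/
def mskOk (m : ℕ) (G : Finset (Fin m)) : Bool :=
  (List.range (2 ^ m)).all fun c => (List.range (2 ^ m)).all fun r =>
    (decide (∀ v ∈ G, dec m c v = dec m r v)) == (c &&& msk G == r &&& msk G)

theorem mg_eq_cls {m : ℕ} (hm : codeOk m) (G : Finset (Fin m)) (hG : mskOk m G = true)
    (z : (Fin m → Bool) → ℕ) (r : ℕ) (hr : r < 2 ^ m) :
    mg G (toInt z) (dec m r) =
      (cls (msk G) (r &&& msk G) (List.range (2 ^ m)) (fun c => z (dec m c)) : ℕ) := by
  have h1 : mg G (toInt z) (dec m r) =
      ((∑ j, if (∀ v ∈ G, j v = dec m r v) then z j else 0 : ℕ) : ℤ) := by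
    unfold mg toInt
    push_cast
    refine Finset.sum_congr rfl (fun i _ => ?_)
    congr
  rw [h1, sum_cells hm]
  congr 1
  unfold cls
  rw [mskOk, List.all_eq_true] at hG
  have h2 : ∀ (l : List ℕ), (∀ c ∈ l, c < 2 ^ m) →
      (l.map fun c => if (∀ v ∈ G, dec m c v = dec m r v) then z (dec m c) else 0).sum =
      ((l.filter fun c => c &&& msk G == r &&& msk G).map fun c => z (dec m c)).sum := by
    intro l
    induction l with
    | nil => intro _; rfl
    | cons c l ih =>
      intro hl
      have h3 := List.all_eq_true.1 (hG c (List.mem_range.2 (hl c List.mem_cons_self))) r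
        (List.mem_range.2 hr)
      rw [beq_iff_eq] at h3
      rw [List.map_cons, List.sum_cons, ih (fun c' hc' => hl c' (List.mem_cons_of_mem _ hc')),
        List.filter_cons]
      by_cases h4 : ∀ v ∈ G, dec m c v = dec m r v
      · rw [if_pos h4, if_pos (by rw [← h3]; exact decide_eq_true h4), List.map_cons,
          List.sum_cons]
      · rw [if_neg h4, if_neg (by rw [← h3]; simpa using h4), zero_add]
  exact h2 _ (fun c hc => List.mem_range.1 hc)

/-- The table with the given list of values. -/
def tab {m : ℕ} (X : List ℕ) : (Fin m → Bool) → ℕ := fun j => X.getD (cod j) 0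

/-- The test for the search. -/
def okX (X acc : List ℕ) : Bool :=
  acc == X.reverse || decide (4 < (List.zipWith (fun a b => a - b) acc X.reverse).sum)

/-- All tests for the search. -/
def chk (m : ℕ) (X Y : List ℕ) (low : List (Finset (Fin m))) (up : Finset (Fin m) → Bool) :
    Bool :=
  (X.length == 2 ^ m) && (X.getD 0 0 != Y.getD 0 0) &&
  (low.all fun G => mskOk m G) && !(low.isEmpty) &&
  ((List.range (2 ^ m)).all fun g =>
    let G : Finset (Fin m) := Finset.univ.filter fun i => g.testBit i
    !(up G) || (mskOk m G && (List.range (2 ^ m)).all fun r =>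
      cls (msk G) (r &&& msk G) (List.range (2 ^ m)) (fun c => X.getD c 0) ==
        cls (msk G) (r &&& msk G) (List.range (2 ^ m)) (fun c => Y.getD c 0))) &&
  srch (low.map msk) (okX X) (List.range (2 ^ m))
    (fun f r => cls f r (List.range (2 ^ m)) (fun c => X.getD c 0)) []

variable {V : Type} [Fintype V] [DecidableEq V]

theorem tab_dec {m : ℕ} (hm : codeOk m) (X : List ℕ) {c : ℕ} (hc : c < 2 ^ m) :
    tab X (dec m c) = X.getD c 0 := by
  unfold tab
  rw [hm.2 c hc]

theorem cls_congr (f r : ℕ) (cs : List ℕ) (z z' : ℕ → ℕ) (h : ∀ c ∈ cs, z c = z' c) :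
    cls f r cs z = cls f r cs z' := by
  unfold cls
  congr 1
  exact List.map_congr_left (fun c hc => h c (List.mem_of_mem_filter hc))

/-- If the tests succeed, the Markov degree is larger than four. -/
theorem bad_of_chk {m : ℕ} (hm : codeOk m) {Δ : Set (Finset V)} (hΔ : IsComplex Δ)
    (c : V → Option (Fin m)) (hs : ∀ w, ∃ v, c v = some w)
    (hsome : ∀ u v w, c u = some w → c v = some w → ({u, v} : Finset V) ∈ Δ)
    (X Y : List ℕ) (low : List (Finset (Fin m))) (up : Finset (Fin m) → Bool)
    (hup : ∀ F ∈ Δ, up (img c F) = true) (hlow : ∀ G ∈ low, ∃ F ∈ Δ, G ⊆ img c F)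
    (h : chk m X Y low up = true) : ¬ MarkovDegreeLE Δ 4 := by
  simp only [chk, Bool.and_eq_true, Bool.not_eq_true'] at h
  obtain ⟨⟨⟨⟨⟨h1, h2⟩, h3⟩, h4⟩, h5⟩, h6⟩ := h
  rw [beq_iff_eq] at h1
  refine bad_of_embed c hΔ hs hsome 4 (tab X) (tab Y) ?_ ?_ ?_
  · intro h7
    have h8 := congrFun h7 (dec m 0)
    rw [tab_dec hm X (by positivity), tab_dec hm Y (by positivity)] at h8
    rw [bne_iff_ne] at h2
    exact h2 h8
  · intro F hF j0
    have h7 := List.all_eq_true.1 h5 (msk (img c F)) (List.mem_range.2 (hm.1 _).2)
    have h8 : (Finset.univ.filter fun i : Fin m => (msk (img c F)).testBit i = true) =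
        img c F := by
      ext i
      rw [Finset.mem_filter]
      have := congrFun (hm.1 (fun i => decide (i ∈ img c F))).1 i
      unfold dec at this
      unfold msk
      rw [this]
      simp
    simp only [h8, hup F hF, Bool.not_true, Bool.false_or, Bool.and_eq_true] at h7
    obtain ⟨h9, h10⟩ := h7
    have h11 := List.all_eq_true.1 h10 (cod j0) (List.mem_range.2 (hm.1 j0).2)
    rw [beq_iff_eq] at h11
    rw [← (hm.1 j0).1, mg_eq_cls hm _ h9 _ _ (hm.1 j0).2, mg_eq_cls hm _ h9 _ _ (hm.1 j0).2]
    congr 1
    rw [cls_congr _ _ _ _ (fun c => X.getD c 0)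
        (fun c hc => tab_dec hm X (List.mem_range.1 hc)),
      cls_congr _ _ _ _ (fun c => Y.getD c 0)
        (fun c hc => tab_dec hm Y (List.mem_range.1 hc)), h11]
  · intro z hz hzx
    have h7 := srch_sound (low.map msk) (by
      intro h
      rw [List.map_eq_nil_iff] at h
      rw [h] at h4
      simp at h4) (okX X) (fun c => z (dec m c)) (List.range (2 ^ m)) _ _ h6 (by
      intro f hf r
      rw [List.mem_map] at hf
      obtain ⟨G, hG, rfl⟩ := hf
      have hG' := List.all_eq_true.1 h3 G hG
      by_cases hr : ∃ r' < 2 ^ m, r' &&& msk G = r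
      · obtain ⟨r', hr', rfl⟩ := hr
        have h8 := hz G (hlow G hG) (dec m r')
        rw [mg_eq_cls hm G hG' _ _ hr', mg_eq_cls hm G hG' _ _ hr'] at h8
        have h9 : cls (msk G) (r' &&& msk G) (List.range (2 ^ m)) (fun c => tab X (dec m c)) =
            cls (msk G) (r' &&& msk G) (List.range (2 ^ m)) (fun c => z (dec m c)) := by
          exact_mod_cast h8
        rw [← h9]
        exact cls_congr _ _ _ _ _ (fun c hc => tab_dec hm X (List.mem_range.1 hc))
      · push Not at hr
        have h8 : ∀ z : ℕ → ℕ, cls (msk G) r (List.range (2 ^ m)) z = 0 := by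
          intro z
          unfold cls
          have : ((List.range (2 ^ m)).filter fun c => c &&& msk G == r) = [] := by
            rw [List.filter_eq_nil_iff]
            intro c' hc' h4
            exact hr c' (List.mem_range.1 hc') (by simpa using h4)
          rw [this]
          rfl
        rw [h8, h8])
    rw [List.append_nil, okX, Bool.or_eq_true, decide_eq_true_eq, beq_iff_eq,
      List.reverse_inj] at h7
    rcases h7 with h7 | h7
    · exfalso
      apply hzx
      funext j
      have h8 : ((List.range (2 ^ m)).map fun c => z (dec m c)).getD (cod j) 0 = X.getD (cod j) 0 := by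
        rw [h7]
      have h9 : cod j < 2 ^ m := (hm.1 j).2
      rw [List.getD_eq_getElem _ _ (by simpa using h9)] at h8
      simp only [List.getElem_map, List.getElem_range] at h8
      rw [(hm.1 j).1] at h8
      exact h8
    · have h8 : degree (toInt z - toInt (tab X)) =
          (((List.range (2 ^ m)).map fun c => z (dec m c) - tab X (dec m c)).sum : ℕ) := by
        rw [← sum_cells hm (fun j => z j - tab X j)]
        unfold degree
        push_cast
        refine Finset.sum_congr rfl (fun j _ => ?_)
        simp only [Pi.sub_apply, toInt]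
        omega
      have h9 : (List.zipWith (fun a b => a - b)
          ((List.range (2 ^ m)).map fun c => z (dec m c)).reverse X.reverse).sum =
          ((List.range (2 ^ m)).map fun c => z (dec m c) - tab X (dec m c)).sum := by
        have h10 : ((List.range (2 ^ m)).map fun c => z (dec m c)).length = X.length := by
          simp [h1]
        rw [← List.reverse_zipWith h10, List.sum_reverse]
        congr 1
        apply List.ext_getElem
        · simp [h1]
        · intro i hi1 hi2
          have hi : i < 2 ^ m := by simpa using hi2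
          simp only [List.getElem_zipWith, List.getElem_map, List.getElem_range]
          rw [tab_dec hm X hi, List.getD_eq_getElem _ _ (by rw [h1]; exact hi)]
      rw [h9] at h7
      rw [h8]
      exact_mod_cast h7

end Pool.Agent.Lib.MP_73b196_co
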