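import Pool.Agent.Lib.MP_73b196_co.Base
import Pool.Agent.Lib.MP_73b196_co.Fib.Bridge

/-!
# The sixth obstruction
-/

set_option autoImplicit false

namespace Pool.Agent.Lib.MP_73b196_co

/-- Equal marginals for a set give equal marginals for its subsets. -/
theorem mg_mono {V : Type} [Fintype V] [DecidableEq V] {G F : Finset V} (hGF : G ⊆ F)
    {x y : (V → Bool) → ℕ} (h : ∀ i0, mg F (toInt x) i0 = mg F (toInt y) i0) (i0 : V → Bool) :
    mg G (toInt x) i0 = mg G (toInt y) i0 := by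
  have h1 := (Fib.BridgeN.eqm_iff F (Fib.BridgeN.mt x) (Fib.BridgeN.mt y)).2 (by
    rw [Fib.BridgeN.tm_mt, Fib.BridgeN.tm_mt]
    exact h)
  have h2 := (Fib.BridgeN.eqm_iff G _ _).1 (h1.mono hGF) i0
  rwa [Fib.BridgeN.tm_mt, Fib.BridgeN.tm_mt] at h2

theorem codeOk_six : codeOk 6 := by
  unfold codeOk
  decide +kernel

theorem msk_testBit {m : ℕ} (hm : codeOk m) (G : Finset (Fin m)) (i : ℕ) :
    (msk G).testBit i = if h : i < m then decide ((⟨i, h⟩ : Fin m) ∈ G) else false := by
  split_ifs with h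
  · exact congrFun (hm.1 (fun i => decide (i ∈ G))).1 ⟨i, h⟩
  · apply Nat.testBit_lt_two_pow
    exact lt_of_lt_of_le (hm.1 (fun i => decide (i ∈ G))).2
      (Nat.pow_le_pow_right (by norm_num) (not_lt.1 h))

theorem mskOk_of {m : ℕ} (hm : codeOk m) (G : Finset (Fin m)) : mskOk m G = true := by
  unfold mskOk
  rw [List.all_eq_true]
  intro c _
  rw [List.all_eq_true]
  intro r _
  rw [beq_iff_eq, Bool.eq_iff_iff, decide_eq_true_eq, beq_iff_eq]
  constructor
  · intro h
    apply Nat.eq_of_testBit_eq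
    intro i
    rw [Nat.testBit_land, Nat.testBit_land, msk_testBit hm]
    split_ifs with hi
    · by_cases hG : (⟨i, hi⟩ : Fin m) ∈ G
      · have := h _ hG
        simp only [dec] at this
        rw [this]
      · simp [hG]
    · simp
  · intro h v hv
    have h1 : (c &&& msk G).testBit v = (r &&& msk G).testBit v := by rw [h]
    rw [Nat.testBit_land, Nat.testBit_land, msk_testBit hm, dif_pos v.2] at h1
    simpa [hv, dec] using h1

theorem cls_filter (f r : ℕ) (z : ℕ → ℕ) (p : ℕ → Bool) (l : List ℕ)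
    (h : ∀ c ∈ l, p c = false → z c = 0) : cls f r l z = cls f r (l.filter p) z := by
  induction l with
  | nil => rfl
  | cons a l ih =>
    have h1 := ih (fun c hc => h c (List.mem_cons_of_mem _ hc))
    rw [cls_cons, h1, List.filter_cons]
    cases hp : p a
    · rw [h a List.mem_cons_self hp]
      simp
    · simp [cls_cons]

theorem cls_zero (f r : ℕ) (z : ℕ → ℕ) (l : List ℕ) (h : cls f r l z = 0) :
    ∀ c ∈ l, c &&& f = r → z c = 0 := by
  intro c hc hr
  unfold cls at h
  rw [List.sum_eq_zero_iff] at h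
  exact h _ (List.mem_map.2 ⟨c, List.mem_filter.2 ⟨hc, by simpa using hr⟩, rfl⟩)

/-- The facets of the complex on six vertices. -/
def lowX : List (Finset (Fin 6)) := [{0, 2, 4}, {1, 3, 4}, {0, 2, 5}, {0, 3, 5}, {1, 3, 5}]

/-- The first table. -/
def X6x : List ℕ := [0, 1, 0, 0, 0, 0, 0, 0, 0, 0, 0, 0, 0, 0, 0, 0, 0, 0, 1, 0, 0, 0, 0, 0, 0, 1,
  0, 0, 0, 0, 0, 0, 1, 0, 0, 0, 0, 0, 0, 0, 0, 0, 0, 0, 0, 1, 0, 0, 0, 0, 0, 0, 0, 0, 0, 1, 0, 0,
  0, 0, 0, 0, 0, 0]

/-- The second table. -/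
def X6y : List ℕ := [1, 0, 0, 0, 0, 0, 0, 0, 0, 1, 0, 0, 0, 0, 0, 0, 0, 0, 0, 1, 0, 0, 0, 0, 0, 0,
  0, 0, 0, 0, 0, 0, 0, 0, 0, 0, 0, 1, 0, 0, 0, 0, 0, 0, 0, 0, 0, 0, 0, 0, 1, 0, 0, 0, 0, 0, 0, 0,
  0, 0, 0, 1, 0, 0]

/-- The cells of the two tables. -/
def X6c : List ℕ := [0, 1, 9, 18, 19, 25, 32, 37, 45, 50, 55, 61]

/-- The masks of the facets. -/
theorem msk_lowX : lowX.map msk = [21, 26, 37, 41, 42] := by decide +kernel

theorem X6_supp : ∀ c ∈ List.range 64, decide (c ∈ X6c) = false →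
    ∃ f ∈ [21, 26, 37, 41, 42], cls f (c &&& f) (List.range 64) (fun c => X6x.getD c 0) = 0 := by
  decide +kernel

theorem X6_same : ∀ f ∈ [21, 26, 37, 41, 42], ∀ r ∈ List.range 64,
    cls f (r &&& f) (List.range 64) (fun c => X6x.getD c 0) =
    cls f (r &&& f) (List.range 64) (fun c => X6y.getD c 0) := by
  decide +kernel

theorem X6_filter : (List.range 64).filter (fun c => decide (c ∈ X6c)) = X6c := by decide +kernel

theorem X6_degree : 4 < degree (toInt (tab X6y : (Fin 6 → Bool) → ℕ) - toInt (tab X6x)) := by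
  decide +kernel

theorem X6_out : ∀ c ∈ List.range 64, decide (c ∈ X6c) = false →
    X6x.getD c 0 = 0 ∧ X6y.getD c 0 = 0 := by
  decide +kernel

theorem X6_mem : ∀ j : Fin 6 → Bool, cod j ∈ List.range 64 := by
  intro j
  exact List.mem_range.2 (codeOk_six.1 j).2

/-- The complex with facets `lowX` has Markov degree larger than four. -/
theorem X6_bad {Δ : Set (Finset (Fin 6))} (hΔ : IsComplex Δ) (hlow : ∀ F ∈ lowX, F ∈ Δ)
    (hup : ∀ G ∈ Δ, ∃ F ∈ lowX, G ⊆ F) : ¬ MarkovDegreeLE Δ 4 := by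
  have hcl : ∀ (F : Finset (Fin 6)) (z : (Fin 6 → Bool) → ℕ) (r : ℕ), r < 64 →
      mg F (toInt z) (dec 6 r) =
      (cls (msk F) (r &&& msk F) (List.range 64) (fun c => z (dec 6 c)) : ℕ) := by
    intro F z r hr
    exact mg_eq_cls codeOk_six F (mskOk_of codeOk_six F) z r hr
  have htab : ∀ (X : List ℕ) (f r : ℕ), cls f r (List.range 64) (fun c => tab X (dec 6 c)) =
      cls f r (List.range 64) (fun c => X.getD c 0) := by
    intro X f r
    exact cls_congr _ _ _ _ _ (fun c hc => tab_dec codeOk_six X (List.mem_range.1 hc))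
  have hmask : ∀ F ∈ lowX, msk F ∈ [21, 26, 37, 41, 42] := by
    intro F hF
    rw [← msk_lowX]
    exact List.mem_map_of_mem hF
  have hmask' : ∀ f ∈ [21, 26, 37, 41, 42], ∃ F ∈ lowX, msk F = f := by
    intro f hf
    rw [← msk_lowX] at hf
    exact List.mem_map.1 hf
  -- the same marginals with respect to the facets suffice
  have hsame : ∀ F ∈ lowX, ∀ i0, mg F (toInt (tab X6x : (Fin 6 → Bool) → ℕ)) i0 =
      mg F (toInt (tab X6y)) i0 := by
    intro F hF i0
    rw [← (codeOk_six.1 i0).1, hcl _ _ _ (codeOk_six.1 i0).2, hcl _ _ _ (codeOk_six.1 i0).2,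
      htab, htab]
    have := X6_same (msk F) (hmask F hF) (cod i0) (X6_mem i0)
    rw [this]
  refine not_le_of_isolated hΔ.empty 4 (tab X6x) (tab X6y) ?_ ?_ ?_
  · rw [same_iff]
    intro G hG i0
    obtain ⟨F, hF, hGF⟩ := hup G hG
    exact mg_mono hGF (hsame F hF) i0
  · intro h
    have h1 := congrFun h (dec 6 0)
    rw [tab_dec codeOk_six _ (by norm_num), tab_dec codeOk_six _ (by norm_num)] at h1
    exact absurd h1 (by decide)
  · intro z hz hzx
    rw [same_iff] at hz
    set z' : ℕ → ℕ := fun c => z (dec 6 c) with hz'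
    have hz1 : ∀ f ∈ [21, 26, 37, 41, 42], ∀ r, r < 64 →
        cls f (r &&& f) (List.range 64) z' =
        cls f (r &&& f) (List.range 64) (fun c => X6x.getD c 0) := by
      intro f hf r hr
      obtain ⟨F, hF, rfl⟩ := hmask' f hf
      have h1 := hz F (hlow F hF) (dec 6 r)
      rw [hcl _ _ _ hr, hcl _ _ _ hr, htab] at h1
      exact (by exact_mod_cast h1.symm)
    have hz0 : ∀ c ∈ List.range 64, decide (c ∈ X6c) = false → z' c = 0 := by
      intro c hc hc'
      obtain ⟨f, hf, h1⟩ := X6_supp c hc hc'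
      rw [← hz1 f hf c (List.mem_range.1 hc)] at h1
      exact cls_zero _ _ _ _ h1 c hc rfl
    have hz2 : ∀ f ∈ [21, 26, 37, 41, 42], ∀ r, r < 64 →
        cls f (r &&& f) X6c z' =
        cls f (r &&& f) (List.range 64) (fun c => X6x.getD c 0) := by
      intro f hf r hr
      rw [← hz1 f hf r hr, cls_filter _ _ z' _ _ hz0, X6_filter]
    have e1 : z' 0 + (z' 32 + 0) = 1 := hz2 21 (by decide) 0 (by norm_num)
    have e2 : z' 1 + (z' 9 + 0) = 1 := hz2 21 (by decide) 1 (by norm_num)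
    have e3 : z' 37 + (z' 45 + 0) = 1 := hz2 21 (by decide) 37 (by norm_num)
    have e4 : z' 0 + (z' 18 + 0) = 1 := hz2 37 (by decide) 0 (by norm_num)
    have e5 : z' 32 + (z' 50 + 0) = 1 := hz2 37 (by decide) 32 (by norm_num)
    have e6 : z' 0 + (z' 1 + 0) = 1 := hz2 42 (by decide) 0 (by norm_num)
    have e7 : z' 18 + (z' 19 + 0) = 1 := hz2 42 (by decide) 18 (by norm_num)
    have e8 : z' 32 + (z' 37 + 0) = 1 := hz2 42 (by decide) 32 (by norm_num)
    have e9 : z' 50 + (z' 55 + 0) = 1 := hz2 42 (by decide) 50 (by norm_num)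
    have e10 : z' 9 + (z' 25 + 0) = 1 := hz2 42 (by decide) 9 (by norm_num)
    have e11 : z' 45 + (z' 61 + 0) = 1 := hz2 42 (by decide) 45 (by norm_num)
    have hfin : ∀ X : List ℕ, (∀ c ∈ List.range 64, decide (c ∈ X6c) = false → X.getD c 0 = 0) →
        (∀ c ∈ X6c, z' c = X.getD c 0) → z = tab X := by
      intro X h1 h2
      funext j
      have h3 : z j = z' (cod j) := by
        rw [hz']
        simp only []
        rw [(codeOk_six.1 j).1]
      rw [h3]
      unfold tab
      cases hc : decide (cod j ∈ X6c)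
      · rw [hz0 _ (X6_mem j) hc, h1 _ (X6_mem j) hc]
      · exact h2 _ (of_decide_eq_true hc)
    have h0 : z' 0 = 0 ∨ z' 0 = 1 := by omega
    rcases h0 with h0 | h0
    · exfalso
      apply hzx
      apply hfin X6x (fun c hc h => (X6_out c hc h).1)
      intro c hc
      simp only [X6c, List.mem_cons, List.not_mem_nil, or_false] at hc
      rcases hc with rfl | rfl | rfl | rfl | rfl | rfl | rfl | rfl | rfl | rfl | rfl | rfl <;>
        simp only [X6x, List.getD_cons_zero, List.getD_cons_succ] <;> omega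
    · have h1 : z = tab X6y := by
        apply hfin X6y (fun c hc h => (X6_out c hc h).2)
        intro c hc
        simp only [X6c, List.mem_cons, List.not_mem_nil, or_false] at hc
        rcases hc with rfl | rfl | rfl | rfl | rfl | rfl | rfl | rfl | rfl | rfl | rfl | rfl <;>
          simp only [X6y, List.getD_cons_zero, List.getD_cons_succ] <;> omega
      rw [h1]
      exact X6_degree

end Pool.Agent.Lib.MP_73b196_co
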